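import Pool.Agent.U670.GEMain
import Pool.Agent.U74.DS.Main

/-!
# Classes of groups with the closure properties known for the Bost conjecture with coefficients
-/

set_option autoImplicit false

namespace Pool.Agent.U74.Bost

open Pool.Agent.U670.AT Pool.Agent.U670.GE

/-- the closure properties: subgroups, virtually solvable groups, groups which act on trees without
inversions with vertex stabilizers in the class, and the groups `GL_2` over fields -/
structure BostClass (C : ∀ (G : Type) [Group G], Prop) : Prop where
  sub : ∀ (G H : Type) [Group G] [Group H] (f : G →* H), Function.Injective f → C H → C G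
  vsolv : ∀ (G : Type) [Group G] (S : Subgroup G), Group.IsSolvable S → S.FiniteIndex → C G
  tree : ∀ (G V : Type) [Group G] [MulAction G V] (T : SimpleGraph V), T.IsTree →
    (∀ (g : G) (u v : V), T.Adj u v → T.Adj (g • u) (g • v)) →
    (∀ (g : G) (u v : V), T.Adj u v → ¬ (g • u = v ∧ g • v = u)) →
    (∀ v : V, C (MulAction.stabilizer G v)) → C G
  gl2 : ∀ (K : Type) [Field K], C (Matrix.GeneralLinearGroup (Fin 2) K)

variable {C : ∀ (G : Type) [Group G], Prop}

theorem BostClass.solv (hC : BostClass C) {G : Type} [Group G] (h : Group.IsSolvable G) : C G := by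
  refine hC.vsolv G ⊤ ?_ inferInstance
  exact Group.isSolvable_of_isSolvable_injective
    (f := (Subgroup.topEquiv : (⊤ : Subgroup G) ≃* G).toMonoidHom)
    (Subgroup.topEquiv : (⊤ : Subgroup G) ≃* G).injective

theorem tree_c (hC : BostClass C) {Γ : Type} [Group Γ] {A B : Subgroup Γ}
    (h : (tr A B).IsTree) (hA : C A) (hB : C B) : C (GG A B) := by
  refine hC.tree (GG A B) (Vt A B) (tr A B) h (fun g u v huv => tr_act g u v huv)
    (fun g u v huv => tr_inv g u v huv) fun v => ?_
  rcases cases_v v with ⟨g, rfl⟩ | ⟨g, rfl⟩
  · let f : ↥(MulAction.stabilizer (GG A B) (vA A B g)) →* A :=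
      { toFun := fun x => ⟨(g : Γ)⁻¹ * ((x : GG A B) : Γ) * (g : Γ), fixA x.2⟩
        map_one' := by
          apply Subtype.ext
          simp
        map_mul' := fun x y => by
          apply Subtype.ext
          simp only [Subgroup.coe_mul]
          group }
    refine hC.sub _ _ f ?_ hA
    intro x y hxy
    have h1 := congrArg Subtype.val hxy
    have h2 : (g : Γ)⁻¹ * ((x : GG A B) : Γ) * (g : Γ) =
        (g : Γ)⁻¹ * ((y : GG A B) : Γ) * (g : Γ) := h1
    have h3 := mul_left_cancel (mul_right_cancel h2)
    exact Subtype.ext (Subtype.ext h3)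
  · let f : ↥(MulAction.stabilizer (GG A B) (vB A B g)) →* B :=
      { toFun := fun x => ⟨(g : Γ)⁻¹ * ((x : GG A B) : Γ) * (g : Γ), fixB x.2⟩
        map_one' := by
          apply Subtype.ext
          simp
        map_mul' := fun x y => by
          apply Subtype.ext
          simp only [Subgroup.coe_mul]
          group }
    refine hC.sub _ _ f ?_ hB
    intro x y hxy
    have h1 := congrArg Subtype.val hxy
    have h2 : (g : Γ)⁻¹ * ((x : GG A B) : Γ) * (g : Γ) =
        (g : Γ)⁻¹ * ((y : GG A B) : Γ) * (g : Γ) := h1
    have h3 := mul_left_cancel (mul_right_cancel h2)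
    exact Subtype.ext (Subtype.ext h3)

theorem ge2_c (hC : BostClass C) {K R : Type} [Field K] [Ring R] [Algebra K R] {deg : R → ℕ}
    (hd : IsDegree K R deg) : C ↥(GE2 R) := by
  rcases subsingleton_or_nontrivial R with hR | hR
  · have hs : Subsingleton ↥(GE2 R) := ⟨fun x y => by
      apply Subtype.ext
      apply Units.ext
      ext i j
      exact Subsingleton.elim _ _⟩
    exact hC.solv (Group.isSolvable_of_comm fun x y => Subsingleton.elim _ _)
  · have hinj : Function.Injective (cst K R) := by
      intro x y hxy
      apply Units.ext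
      ext i j
      have h1 := congrArg (fun z : M2 R => z.val i j) hxy
      simp only [cst_val] at h1
      exact (algebraMap K R).injective h1
    have hA : C (A0 K R) := hC.sub _ _ (MonoidHom.ofInjective hinj).symm.toMonoidHom
      (MonoidHom.ofInjective hinj).symm.injective (hC.gl2 K)
    have hB : C (B0 K R) := hC.solv (B0_solvable (K := K) (R := R))
    exact hC.sub _ _ (Subgroup.inclusion (GE2_le hd)) (Subgroup.inclusion_injective _)
      (tree_c hC (tr_tree (lev hd)) hA hB)

theorem ds_c (hC : BostClass C) {K : Type} [Field K] {P : Polynomial K} (hd : 3 ≤ P.natDegree) :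
    C ↥(U74.DS.aG P ⊔ U74.DS.bG P) := by
  have hP : P ≠ 0 := U74.DS.P_ne (by omega)
  exact tree_c hC (U74.DS.tr_tree (U74.DS.levB hd)) (hC.solv (U74.DS.a_solvable hP))
    (hC.solv (U74.DS.b_solvable hP))

end Pool.Agent.U74.Bost
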