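import Mathlib

/-!
# Classes of groups with the closure properties of the Baum-Connes conjecture with coefficients
-/

set_option autoImplicit false

namespace Pool.Agent.U74.BCC

open scoped commutatorElement

/-- the closure properties: subgroups, groups whose finitely generated subgroups are in the class, virtually
solvable groups, extensions such that the quotient and the preimages of its finite subgroups are in
the class, groups which act on trees without inversions with vertex stabilizers in the class, and the groups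
`GL_2` over fields -/
structure BCClass (C : ∀ (G : Type) [Group G], Prop) : Prop where
  sub : ∀ (G H : Type) [Group G] [Group H] (f : G →* H), Function.Injective f → C H → C G
  loc : ∀ (G : Type) [Group G], (∀ H : Subgroup G, H.FG → C H) → C G
  vsolv : ∀ (G : Type) [Group G] (S : Subgroup G), Group.IsSolvable S → S.FiniteIndex → C G
  ext : ∀ (G Q : Type) [Group G] [Group Q] (π : G →* Q), Function.Surjective π → C Q →
    (∀ F : Subgroup Q, Finite F → C (F.comap π)) → C G
  tree : ∀ (G V : Type) [Group G] [MulAction G V] (T : SimpleGraph V), T.IsTree →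
    (∀ (g : G) (u v : V), T.Adj u v → T.Adj (g • u) (g • v)) →
    (∀ (g : G) (u v : V), T.Adj u v → ¬ (g • u = v ∧ g • v = u)) →
    (∀ v : V, C (MulAction.stabilizer G v)) → C G
  gl2 : ∀ (K : Type) [Field K], C (Matrix.GeneralLinearGroup (Fin 2) K)

variable {C : ∀ (G : Type) [Group G], Prop}

theorem BCClass.fin (hC : BCClass C) {G : Type} [Group G] (h : Finite G) : C G :=
  hC.vsolv G ⊥ (Group.isSolvable_of_comm fun x y => Subtype.ext (by
    have hx := Subgroup.mem_bot.1 x.2
    have hy := Subgroup.mem_bot.1 y.2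
    show (x : G) * y = y * x
    rw [hx, hy])) inferInstance

theorem BCClass.prod (hC : BCClass C) {G H : Type} [Group G] [Group H] (hG : C G) (hH : C H) :
    C (G × H) := by
  refine hC.ext (G × H) H (MonoidHom.snd G H) (fun y => ⟨(1, y), rfl⟩) hH fun F hF => ?_
  refine hC.ext (F.comap (MonoidHom.snd G H)) G
    ((MonoidHom.fst G H).comp (Subgroup.subtype _)) (fun x => ⟨⟨(x, 1), F.one_mem⟩, rfl⟩) hG fun E hE => ?_
  refine hC.fin ?_
  refine Finite.of_injective (fun x : E.comap ((MonoidHom.fst G H).comp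
    (Subgroup.subtype (F.comap (MonoidHom.snd G H)))) =>
      ((⟨x.1.1.1, x.2⟩ : E), (⟨x.1.1.2, x.1.2⟩ : F))) ?_
  intro x y hxy
  have h1 := congrArg (fun z : E × F => (z.1 : G)) hxy
  have h2 := congrArg (fun z : E × F => (z.2 : H)) hxy
  exact Subtype.ext (Subtype.ext (Prod.ext h1 h2))

theorem BCClass.multi (hC : BCClass C) {G ι : Type} [Group G] (s : Finset ι) (Q : ι → Type)
    [∀ i, Group (Q i)] (f : ∀ i, G →* Q i) (hQ : ∀ i, C (Q i)) :
    ∃ (P : Type) (_ : Group P) (φ : G →* P), C P ∧ ∀ x, φ x = 1 ↔ ∀ i ∈ s, f i x = 1 := by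
  classical
  induction s using Finset.induction_on with
  | empty =>
    refine ⟨Unit, inferInstance, 1, hC.fin inferInstance, fun x => ?_⟩
    simp
  | insert a s _ ih =>
    obtain ⟨P, _, φ, hP, hφ⟩ := ih
    refine ⟨P × Q a, inferInstance, φ.prod (f a), hC.prod hP (hQ a), fun x => ?_⟩
    rw [MonoidHom.prod_apply, Prod.mk_eq_one, hφ]
    constructor
    · rintro ⟨h1, h2⟩ i hi
      rcases Finset.mem_insert.1 hi with rfl | hi
      · exact h2
      · exact h1 i hi
    · intro h
      exact ⟨fun i hi => h i (Finset.mem_insert_of_mem hi), h a (Finset.mem_insert_self _ _)⟩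

/-- extensions with solvable kernels -/
theorem BCClass.sol (hC : BCClass C) {G P : Type} [Group G] [Group P] (π : G →* P) (hP : C P)
    (hk : Group.IsSolvable π.ker) : C G := by
  refine hC.ext G π.range π.rangeRestrict π.rangeRestrict_surjective
    (hC.sub _ _ π.range.subtype (Subgroup.subtype_injective _) hP) fun F hF => ?_
  obtain ⟨r, hr⟩ : ∃ r : F.comap π.rangeRestrict →* F, ∀ x, ((r x : π.range) : P) = π (x : G) :=
    ⟨(π.rangeRestrict.comp (Subgroup.subtype _)).codRestrict F fun x => x.2, fun x => rfl⟩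
  refine hC.vsolv _ r.ker ?_ inferInstance
  have hmem : ∀ x : r.ker, ((x : F.comap π.rangeRestrict) : G) ∈ π.ker := by
    intro x
    have h1 : r (x : F.comap π.rangeRestrict) = 1 := x.2
    rw [MonoidHom.mem_ker, ← hr, h1]
    rfl
  let j : r.ker →* π.ker :=
    { toFun := fun x => ⟨_, hmem x⟩
      map_one' := rfl
      map_mul' := fun x y => rfl }
  refine Group.isSolvable_of_isSolvable_injective (f := j) ?_
  intro x y hxy
  exact Subtype.ext (Subtype.ext (congrArg (fun z : π.ker => (z : G)) hxy))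

section mat

variable {A : Type} [CommRing A] {n : ℕ}

/-- the entries of `x - 1` are in `J` -/
def Cg (J : Ideal A) (x : Matrix.GeneralLinearGroup (Fin n) A) : Prop :=
  ∀ i j, ((x : Matrix (Fin n) (Fin n) A) - 1) i j ∈ J

theorem mul_mem_r {J : Ideal A} {X Y : Matrix (Fin n) (Fin n) A} (hX : ∀ i j, X i j ∈ J) (i j : Fin n) :
    (X * Y) i j ∈ J := by
  rw [Matrix.mul_apply]
  exact J.sum_mem fun k _ => J.mul_mem_right _ (hX i k)

theorem mul_mem_2 {J I : Ideal A} {X Y : Matrix (Fin n) (Fin n) A} (hX : ∀ i j, X i j ∈ J)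
    (hY : ∀ i j, Y i j ∈ I) (i j : Fin n) : (X * Y) i j ∈ J * I := by
  rw [Matrix.mul_apply]
  exact (J * I).sum_mem fun k _ => Ideal.mul_mem_mul (hX i k) (hY k j)

theorem Cg.comm {J : Ideal A} {x y : Matrix.GeneralLinearGroup (Fin n) A} (hx : Cg J x) (hy : Cg J y) :
    Cg (J * J) ⁅x, y⁆ := by
  have h1 : ((⁅x, y⁆ : Matrix.GeneralLinearGroup (Fin n) A) : Matrix (Fin n) (Fin n) A) - 1 =
      (((x : Matrix (Fin n) (Fin n) A) - 1) * ((y : Matrix (Fin n) (Fin n) A) - 1) -
        ((y : Matrix (Fin n) (Fin n) A) - 1) * ((x : Matrix (Fin n) (Fin n) A) - 1)) *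
        ((x⁻¹ * y⁻¹ : Matrix.GeneralLinearGroup (Fin n) A) : Matrix (Fin n) (Fin n) A) := by
    have e1 : ((x : Matrix (Fin n) (Fin n) A) - 1) * ((y : Matrix (Fin n) (Fin n) A) - 1) -
        ((y : Matrix (Fin n) (Fin n) A) - 1) * ((x : Matrix (Fin n) (Fin n) A) - 1) =
        ((x * y : Matrix.GeneralLinearGroup (Fin n) A) : Matrix (Fin n) (Fin n) A) -
          ((y * x : Matrix.GeneralLinearGroup (Fin n) A) : Matrix (Fin n) (Fin n) A) := by
      rw [Units.val_mul, Units.val_mul]
      noncomm_ring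
    have e2 : (y * x) * (x⁻¹ * y⁻¹) = 1 := by group
    rw [e1, sub_mul, ← Units.val_mul, ← Units.val_mul, e2, commutatorElement_def, Units.val_one]
    congr 2
    group
  intro i j
  rw [h1]
  refine mul_mem_r (fun i j => ?_) i j
  rw [Matrix.sub_apply]
  exact (J * J).sub_mem (mul_mem_2 hx hy i j) (mul_mem_2 hy hx i j)

/-- the group of the matrices congruent to one modulo an ideal -/
def cgS (J : Ideal A) : Subgroup (Matrix.GeneralLinearGroup (Fin n) A) :=
  (Matrix.GeneralLinearGroup.map (Ideal.Quotient.mk J)).ker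

theorem mem_cgS {J : Ideal A} {x : Matrix.GeneralLinearGroup (Fin n) A} : x ∈ cgS J ↔ Cg J x := by
  unfold cgS Cg
  rw [MonoidHom.mem_ker]
  constructor
  · intro h i j
    have h1 := congrArg (fun z : Matrix.GeneralLinearGroup (Fin n) (A ⧸ J) =>
      (z : Matrix (Fin n) (Fin n) (A ⧸ J)) i j) h
    have h2 : Ideal.Quotient.mk J ((x : Matrix (Fin n) (Fin n) A) i j) =
        (1 : Matrix (Fin n) (Fin n) (A ⧸ J)) i j := h1
    rw [← Ideal.Quotient.eq_zero_iff_mem, Matrix.sub_apply, map_sub, h2]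
    by_cases hij : i = j
    · subst hij
      rw [Matrix.one_apply_eq, Matrix.one_apply_eq, map_one, sub_self]
    · rw [Matrix.one_apply_ne hij, Matrix.one_apply_ne hij, map_zero, sub_self]
  · intro h
    apply Units.ext
    ext i j
    show Ideal.Quotient.mk J ((x : Matrix (Fin n) (Fin n) A) i j) =
      (1 : Matrix (Fin n) (Fin n) (A ⧸ J)) i j
    have h1 := h i j
    rw [← Ideal.Quotient.eq_zero_iff_mem, Matrix.sub_apply, map_sub, sub_eq_zero] at h1
    rw [h1]
    by_cases hij : i = j
    · subst hij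
      rw [Matrix.one_apply_eq, Matrix.one_apply_eq, map_one]
    · rw [Matrix.one_apply_ne hij, Matrix.one_apply_ne hij, map_zero]

theorem nil_solv {J : Ideal A} {m : ℕ} (hJ : J ^ m = ⊥)
    (K : Subgroup (Matrix.GeneralLinearGroup (Fin n) A)) (hK : ∀ x ∈ K, Cg J x) :
    Group.IsSolvable K := by
  have key : ∀ k : ℕ, derivedSeries K k ≤ (cgS (J ^ (2 ^ k))).comap K.subtype := by
    intro k
    induction k with
    | zero =>
      intro x _
      rw [Subgroup.mem_comap, mem_cgS, pow_zero, pow_one]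
      exact hK x x.2
    | succ k ih =>
      rw [derivedSeries_succ, Subgroup.commutator_le]
      intro x hx y hy
      have h1 := mem_cgS.1 (Subgroup.mem_comap.1 (ih hx))
      have h2 := mem_cgS.1 (Subgroup.mem_comap.1 (ih hy))
      rw [Subgroup.mem_comap, mem_cgS, pow_succ, pow_mul, pow_two, map_commutatorElement]
      exact h1.comm h2
  refine (Group.isSolvable_def _).2 ⟨m, ?_⟩
  rw [eq_bot_iff]
  intro x hx
  have h1 := mem_cgS.1 (Subgroup.mem_comap.1 (key m hx))
  have h2 : J ^ (2 ^ m) ≤ ⊥ := by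
    rw [← hJ]
    exact Ideal.pow_le_pow_right (Nat.lt_two_pow_self).le
  rw [Subgroup.mem_bot]
  apply Subtype.ext
  apply Units.ext
  ext i j
  have h3 := h2 (h1 i j)
  rw [Submodule.mem_bot, Matrix.sub_apply, sub_eq_zero] at h3
  exact h3

end mat

/-- Noetherian rings -/
theorem noeth (hC : BCClass C) (A : Type) [CommRing A] [IsNoetherianRing A] :
    C (Matrix.GeneralLinearGroup (Fin 2) A) := by
  classical
  have hfin : {p : PrimeSpectrum A | p.asIdeal ∈ minimalPrimes A}.Finite := by
    refine Set.Finite.of_finite_image (f := PrimeSpectrum.asIdeal) ?_ ?_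
    · refine (minimalPrimes.finite_of_isNoetherianRing A).subset ?_
      rintro _ ⟨p, hp, rfl⟩
      exact hp
    · intro p _ q _ h
      exact PrimeSpectrum.ext h
  obtain ⟨P, _, φ, hP, hφ⟩ := hC.multi (G := Matrix.GeneralLinearGroup (Fin 2) A) hfin.toFinset
    (fun p : PrimeSpectrum A => Matrix.GeneralLinearGroup (Fin 2) p.asIdeal.ResidueField)
    (fun p => Matrix.GeneralLinearGroup.map (algebraMap A p.asIdeal.ResidueField))
    (fun p => hC.gl2 p.asIdeal.ResidueField)
  obtain ⟨m, hm⟩ := IsNoetherianRing.isNilpotent_nilradical A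
  refine hC.sol φ hP (nil_solv hm φ.ker fun x hx i j => ?_)
  have h1 := (hφ x).1 hx
  rw [nilradical, ← Ideal.sInf_minimalPrimes, Submodule.mem_sInf]
  intro (p : Ideal A) hp
  have hpp : p.IsPrime := hp.1.1
  have h2 := h1 ⟨p, hpp⟩ (hfin.mem_toFinset.2 hp)
  have h3 := congrArg (fun z : Matrix.GeneralLinearGroup (Fin 2) p.ResidueField =>
      (z : Matrix (Fin 2) (Fin 2) p.ResidueField) i j) h2
  have h4 : algebraMap A p.ResidueField ((x : Matrix (Fin 2) (Fin 2) A) i j) =
      (1 : Matrix (Fin 2) (Fin 2) p.ResidueField) i j := h3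
  rw [← Ideal.algebraMap_residueField_eq_zero, Matrix.sub_apply, map_sub, h4]
  by_cases hij : i = j
  · subst hij
    rw [Matrix.one_apply_eq, Matrix.one_apply_eq, map_one, sub_self]
  · rw [Matrix.one_apply_ne hij, Matrix.one_apply_ne hij, map_zero, sub_self]

/-- a group of matrices whose entries, and those of the inverses, are in a subring -/
theorem sub_range {R : Type} [CommRing R] {n : ℕ} (S : Subalgebra ℤ R)
    (x : Matrix.GeneralLinearGroup (Fin n) R) (h : ∀ i j, (x : Matrix (Fin n) (Fin n) R) i j ∈ S)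
    (h' : ∀ i j, ((x⁻¹ : Matrix.GeneralLinearGroup (Fin n) R) : Matrix (Fin n) (Fin n) R) i j ∈ S) :
    x ∈ (Matrix.GeneralLinearGroup.map (n := Fin n) (algebraMap S R)).range := by
  have key : ∀ x y : Matrix.GeneralLinearGroup (Fin n) R, x * y = 1 →
      ∀ (h : ∀ i j, (x : Matrix (Fin n) (Fin n) R) i j ∈ S)
      (h' : ∀ i j, (y : Matrix (Fin n) (Fin n) R) i j ∈ S),
      (Matrix.of fun i j => (⟨(x : Matrix (Fin n) (Fin n) R) i j, h i j⟩ : S)) *
        (Matrix.of fun i j => (⟨(y : Matrix (Fin n) (Fin n) R) i j, h' i j⟩ : S)) = 1 := by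
    intro x y hxy h h'
    ext i j
    have h1 := congrArg (fun z : Matrix.GeneralLinearGroup (Fin n) R =>
      (z : Matrix (Fin n) (Fin n) R) i j) hxy
    have h2 : ((x : Matrix (Fin n) (Fin n) R) * (y : Matrix (Fin n) (Fin n) R)) i j =
      (1 : Matrix (Fin n) (Fin n) R) i j := h1
    rw [Matrix.mul_apply] at h2
    rw [Matrix.mul_apply]
    push_cast
    simp only [Matrix.of_apply]
    rw [h2]
    by_cases hij : i = j
    · subst hij
      rw [Matrix.one_apply_eq, Matrix.one_apply_eq]
      rfl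
    · rw [Matrix.one_apply_ne hij, Matrix.one_apply_ne hij]
      rfl
  refine ⟨⟨_, _, key x x⁻¹ (mul_inv_cancel x) h h', key x⁻¹ x (inv_mul_cancel x) h' h⟩, ?_⟩
  apply Units.ext
  ext i j
  rfl

/-- **`GL_2` over commutative rings** -/
theorem gl2_ring (hC : BCClass C) (R : Type) [CommRing R] : C (Matrix.GeneralLinearGroup (Fin 2) R) := by
  classical
  refine hC.loc _ fun H hH => ?_
  obtain ⟨S, hS⟩ := hH
  obtain ⟨E, hE⟩ : ∃ E : Finset R, ∀ x ∈ S, ∀ i j, (x : Matrix (Fin 2) (Fin 2) R) i j ∈ E ∧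
      ((x⁻¹ : Matrix.GeneralLinearGroup (Fin 2) R) : Matrix (Fin 2) (Fin 2) R) i j ∈ E := by
    refine ⟨(S.product (Finset.univ : Finset (Fin 2 × Fin 2))).image
      (fun q => (q.1 : Matrix (Fin 2) (Fin 2) R) q.2.1 q.2.2) ∪
      (S.product (Finset.univ : Finset (Fin 2 × Fin 2))).image
      (fun q => ((q.1⁻¹ : Matrix.GeneralLinearGroup (Fin 2) R) : Matrix (Fin 2) (Fin 2) R) q.2.1 q.2.2),
      fun x hx i j => ⟨?_, ?_⟩⟩
    · refine Finset.mem_union_left _ (Finset.mem_image.2 ⟨(x, (i, j)), ?_, rfl⟩)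
      exact Finset.mem_product.2 ⟨hx, Finset.mem_univ _⟩
    · refine Finset.mem_union_right _ (Finset.mem_image.2 ⟨(x, (i, j)), ?_, rfl⟩)
      exact Finset.mem_product.2 ⟨hx, Finset.mem_univ _⟩
  obtain ⟨A, hA⟩ : ∃ A : Subalgebra ℤ R, A = Algebra.adjoin ℤ (E : Set R) := ⟨_, rfl⟩
  have hfg : A.FG := by
    rw [hA]
    exact Subalgebra.fg_adjoin_finset E
  have hft : Algebra.FiniteType ℤ A := (Subalgebra.fg_iff_finiteType A).1 hfg
  have hn : IsNoetherianRing A := Algebra.FiniteType.isNoetherianRing ℤ A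
  have hle : H ≤ (Matrix.GeneralLinearGroup.map (n := Fin 2) (algebraMap A R)).range := by
    rw [← hS, Subgroup.closure_le]
    intro x hx
    refine sub_range A x (fun i j => ?_) (fun i j => ?_)
    · rw [hA]
      exact Algebra.subset_adjoin (hE x hx i j).1
    · rw [hA]
      exact Algebra.subset_adjoin (hE x hx i j).2
  have hinj : Function.Injective (Matrix.GeneralLinearGroup.map (n := Fin 2) (algebraMap A R)) := by
    intro x y hxy
    apply Units.ext
    ext i j
    have h1 := congrArg (fun z : Matrix.GeneralLinearGroup (Fin 2) R =>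
      (z : Matrix (Fin 2) (Fin 2) R) i j) hxy
    exact h1
  refine hC.sub _ _ ((MonoidHom.ofInjective hinj).symm.toMonoidHom.comp (Subgroup.inclusion hle)) ?_
    (noeth hC A)
  exact (MonoidHom.ofInjective hinj).symm.injective.comp (Subgroup.inclusion_injective _)

/-- groups with finitely many homomorphisms to `GL_2` over commutative rings, with a solvable common
kernel -/
theorem two_dim (hC : BCClass C) {G ι : Type} [Group G] (s : Finset ι) (R : ι → Type)
    [∀ i, CommRing (R i)] (f : ∀ i, G →* Matrix.GeneralLinearGroup (Fin 2) (R i))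
    (K : Subgroup G) (hK : Group.IsSolvable K) (hf : ∀ x, (∀ i ∈ s, f i x = 1) → x ∈ K) : C G := by
  obtain ⟨P, _, φ, hP, hφ⟩ := hC.multi s (fun i => Matrix.GeneralLinearGroup (Fin 2) (R i)) f
    fun i => gl2_ring hC (R i)
  refine hC.sol φ hP ?_
  have hle : φ.ker ≤ K := fun x hx => hf x ((hφ x).1 hx)
  exact Group.isSolvable_of_isSolvable_injective (f := Subgroup.inclusion hle)
    (Subgroup.inclusion_injective _)

end Pool.Agent.U74.BCC
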