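import Pool.Agent.U74.BCC.Semi
import Pool.Agent.U293.EP.Flag

/-!
# Groups of automorphisms preserving a chain of polynomial rings
-/

set_option autoImplicit false

namespace Pool.Agent.U74.BCC

open MvPolynomial Pool.Agent.U293.PA
open Pool.Agent.U293.EP (An bc bc_X bc_comp an_ext bc_map bc_injective toAn toAn_apply A1 rho1 a1_form
  a1_comp)

variable {C : ∀ (G : Type) [Group G], Prop}

section frac

variable (R : Type) [CommRing R] [IsDomain R]

theorem fr_ext {f g : FractionRing R →+* FractionRing R}
    (h : ∀ r, f (algebraMap R _ r) = g (algebraMap R _ r)) : f = g :=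
  IsLocalization.ringHom_ext (nonZeroDivisors R) (RingHom.ext h)

/-- the action on the field of fractions -/
noncomputable def frc : RingAut R →* RingAut (FractionRing R) where
  toFun g := IsFractionRing.ringEquivOfRingEquiv (K := FractionRing R) (L := FractionRing R) g
  map_one' := by
    apply RingEquiv.ext
    intro x
    have h1 : ((IsFractionRing.ringEquivOfRingEquiv (K := FractionRing R) (L := FractionRing R)
        (1 : R ≃+* R)) : FractionRing R ≃+* FractionRing R).toRingHom = RingHom.id _ := by
      apply fr_ext
      intro r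
      exact IsFractionRing.ringEquivOfRingEquiv_algebraMap (K := FractionRing R)
        (L := FractionRing R) (1 : R ≃+* R) r
    exact congrArg (fun f : FractionRing R →+* FractionRing R => f x) h1
  map_mul' g h := by
    apply RingEquiv.ext
    intro x
    have h1 : ((IsFractionRing.ringEquivOfRingEquiv (K := FractionRing R) (L := FractionRing R)
        (g * h : R ≃+* R)) : FractionRing R ≃+* FractionRing R).toRingHom =
        ((IsFractionRing.ringEquivOfRingEquiv (K := FractionRing R) (L := FractionRing R)
        (g : R ≃+* R)) : FractionRing R ≃+* FractionRing R).toRingHom.comp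
        ((IsFractionRing.ringEquivOfRingEquiv (K := FractionRing R) (L := FractionRing R)
        (h : R ≃+* R)) : FractionRing R ≃+* FractionRing R).toRingHom := by
      apply fr_ext
      intro r
      have e1 := IsFractionRing.ringEquivOfRingEquiv_algebraMap (K := FractionRing R)
        (L := FractionRing R) (g * h : R ≃+* R) r
      have e2 := IsFractionRing.ringEquivOfRingEquiv_algebraMap (K := FractionRing R)
        (L := FractionRing R) (h : R ≃+* R) r
      have e3 := IsFractionRing.ringEquivOfRingEquiv_algebraMap (K := FractionRing R)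
        (L := FractionRing R) (g : R ≃+* R) (h r)
      refine e1.trans ?_
      change _ = (IsFractionRing.ringEquivOfRingEquiv (K := FractionRing R) (L := FractionRing R)
        (g : R ≃+* R)) ((IsFractionRing.ringEquivOfRingEquiv (K := FractionRing R)
        (L := FractionRing R) (h : R ≃+* R)) (algebraMap R _ r))
      rw [e2, e3]
      rfl
    exact congrArg (fun f : FractionRing R →+* FractionRing R => f x) h1

theorem frc_ap (g : RingAut R) (r : R) :
    frc R g (algebraMap R (FractionRing R) r) = algebraMap R (FractionRing R) (g r) :=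
  IsFractionRing.ringEquivOfRingEquiv_algebraMap (K := FractionRing R) (L := FractionRing R) g r

end frac

/-- the restriction of the action to a subring -/
theorem desc {P R S : Type} [Group P] [CommRing R] [CommRing S] (ι : R →+* S)
    (hι : Function.Injective ι) (τ : P →* RingAut R) (φ : P →* RingAut S)
    (h : ∀ p r, φ p (ι r) = ι (τ p r)) : ∃ s : φ.range →* τ.range, Function.Surjective s ∧
      ∀ (g : φ.range) (r : R), (g : RingAut S) (ι r) = ι ((s g : RingAut R) r) := by
  have hex : ∀ g : φ.range, ∃ p, φ p = g := fun g => g.2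
  choose p hp using hex
  refine ⟨MonoidHom.mk' (fun g => (⟨τ (p g), p g, rfl⟩ : τ.range)) ?_, ?_, ?_⟩
  · intro g g'
    apply Subtype.ext
    apply RingEquiv.ext
    intro r
    apply hι
    change ι (τ (p (g * g')) r) = ι (τ (p g) (τ (p g') r))
    rw [← h, ← h, ← h, hp, hp, hp]
    rfl
  · rintro ⟨_, q, rfl⟩
    refine ⟨⟨φ q, q, rfl⟩, ?_⟩
    apply Subtype.ext
    apply RingEquiv.ext
    intro r
    apply hι
    change ι (τ (p ⟨φ q, q, rfl⟩) r) = ι (τ q r)
    rw [← h, ← h, hp]
  · intro g r
    change (g : RingAut S) (ι r) = ι (τ (p g) r)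
    rw [← h, hp]

section lpart

variable {G F σ R : Type} [Group G] [Group F] [CommRing R] (a : G →* RingAut (MvPolynomial σ R))
  (u : G →* F) (v : F →* RingAut R) (h : ∀ g r, a g (MvPolynomial.C r) = MvPolynomial.C (v (u g) r))

/-- the part of a semilinear automorphism which is an automorphism over the coefficients -/
noncomputable def lpart (g : G) : An σ R :=
  toAn (a g * (mapEquiv σ (v (u g) : R ≃+* R))⁻¹ : RingAut (MvPolynomial σ R)) (by
    intro r
    change a g ((mapEquiv σ (v (u g) : R ≃+* R)).symm (MvPolynomial.C r)) = MvPolynomial.C r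
    rw [mapEquiv_symm, mapEquiv_apply]
    have e1 : map ((v (u g) : R ≃+* R).symm : R →+* R) (MvPolynomial.C r : MvPolynomial σ R) =
        MvPolynomial.C ((v (u g) : R ≃+* R).symm r) := map_C _ _
    rw [e1, h, RingEquiv.apply_symm_apply])

theorem lpart_map (g : G) (P : MvPolynomial σ R) :
    lpart a u v h g (map ((v (u g) : R ≃+* R) : R →+* R) P) = a g P := by
  change a g ((mapEquiv σ (v (u g) : R ≃+* R)).symm ((mapEquiv σ (v (u g) : R ≃+* R)) P)) = a g P
  rw [RingEquiv.symm_apply_apply]

theorem lpart_X (g : G) (i : σ) : lpart a u v h g (X i) = a g (X i) := by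
  have h1 := lpart_map a u v h g (X i)
  rwa [map_X] at h1

theorem lpart_inj {g g' : G} (h1 : lpart a u v h g = lpart a u v h g') (h2 : u g = u g') :
    a g = a g' := by
  apply RingEquiv.ext
  intro P
  rw [← lpart_map a u v h g, ← lpart_map a u v h g', h1, h2]

end lpart

section two

variable {G F R : Type} [Group G] [Group F] [CommRing R] [IsDomain R]
  (a : G →* RingAut (MvPolynomial (Fin 2) R))
  (u : G →* F) (v : F →* RingAut R) (h : ∀ g r, a g (MvPolynomial.C r) = MvPolynomial.C (v (u g) r))

/-- a semilinear automorphism as an element of the semidirect product -/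
noncomputable def th : G →* (Au (FractionRing R) ⋊[cj ((frc R).comp v)] F) where
  toFun g := ⟨bc (algebraMap R (FractionRing R)) (lpart a u v h g), u g⟩
  map_one' := by
    refine SemidirectProduct.ext ?_ (map_one u)
    apply an_ext
    intro i
    rw [bc_X, lpart_X, map_one]
    exact map_X _ i
  map_mul' g g' := by
    refine SemidirectProduct.ext ?_ (map_mul u g g')
    rw [SemidirectProduct.mul_left]
    apply an_ext
    intro i
    rw [AlgEquiv.mul_apply, cj_X]
    simp only
    rw [bc_X, bc_X, lpart_X, lpart_X, MvPolynomial.map_map]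
    have e1 : (((frc R).comp v) (u g) : FractionRing R ≃+* FractionRing R).toRingHom.comp
        (algebraMap R (FractionRing R)) = (algebraMap R (FractionRing R)).comp
        ((v (u g) : R ≃+* R) : R →+* R) := by
      ext r
      exact frc_ap R (v (u g)) r
    rw [e1, ← MvPolynomial.map_map, bc_map, lpart_map, map_mul]
    rfl

theorem th_inj (ha : Function.Injective a) : Function.Injective (th a u v h) := by
  intro g g' hg
  have h1 : bc (algebraMap R (FractionRing R)) (lpart a u v h g) =
      bc (algebraMap R (FractionRing R)) (lpart a u v h g') := congrArg SemidirectProduct.left hg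
  have h2 : u g = u g' := congrArg SemidirectProduct.right hg
  exact ha (lpart_inj a u v h (bc_injective (IsFractionRing.injective R (FractionRing R)) h1) h2)

end two

theorem step_two (hC : BCClass C) (hV : FinExtGL2 C) {P R : Type} [Group P] [CommRing R] [IsDomain R]
    (τ : P →* RingAut R) (φ : P →* RingAut (MvPolynomial (Fin 2) R))
    (hτ : ∀ p r, φ p (MvPolynomial.C r) = MvPolynomial.C (τ p r))
    (ht : ∀ p, ∃ t ∈ Tame (FractionRing R), ∀ i : Fin 2,
      t (X i) = map (algebraMap R (FractionRing R)) (φ p (X i)))
    (h : C τ.range) : C φ.range := by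
  obtain ⟨s, hs, hsr⟩ := desc (MvPolynomial.C : R →+* MvPolynomial (Fin 2) R) (C_injective _ _) τ φ hτ
  refine hC.ext φ.range τ.range s hs h fun F hF => ?_
  let a : F.comap s →* RingAut (MvPolynomial (Fin 2) R) := φ.range.subtype.comp (F.comap s).subtype
  let u : F.comap s →* F := (s.comp (F.comap s).subtype).codRestrict F fun x => x.2
  let v : F →* RingAut R := τ.range.subtype.comp F.subtype
  have hh : ∀ g r, a g (MvPolynomial.C r) = MvPolynomial.C (v (u g) r) := fun g r => hsr g.1 r
  have ha : Function.Injective a := (Subgroup.subtype_injective _).comp (Subgroup.subtype_injective _)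
  refine hC.sub _ _ ((th a u v hh).codRestrict (aS ((frc R).comp v) ⊔ bS ((frc R).comp v))
    (fun g => tame_lft _ ?_)) ?_ (c_semi ((frc R).comp v) hC hV)
  · obtain ⟨p, hp⟩ := g.1.2
    obtain ⟨t, ht1, ht2⟩ := ht p
    have h2 : (th a u v hh g).left = t := by
      apply an_ext
      intro i
      change bc (algebraMap R (FractionRing R)) (lpart a u v hh g) (X i) = t (X i)
      rw [bc_X, lpart_X, ht2, hp]
      rfl
    rw [h2]
    exact ht1
  · intro x y hxy
    exact th_inj a u v hh ha (congrArg Subtype.val hxy)

theorem a1_solvable (K : Type) [Field K] : Group.IsSolvable (A1 K) := by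
  let χ : A1 K →* Kˣ := (Units.map (Matrix.detMonoidHom)).comp rho1
  have hk : Group.IsSolvable χ.ker := by
    apply Group.isSolvable_of_comm
    have key : ∀ x : χ.ker, ∃ b : K, (x : A1 K) Polynomial.X = Polynomial.X + Polynomial.C b := by
      intro x
      obtain ⟨a, b, hx⟩ := a1_form (x : A1 K)
      have h1 : χ (x : A1 K) = 1 := x.2
      have h2 : Matrix.det (!![((x : A1 K) Polynomial.X).coeff 1, 0; ((x : A1 K) Polynomial.X).coeff 0, 1] :
        Matrix (Fin 2) (Fin 2) K) = 1 := congrArg Units.val h1
      rw [hx, Matrix.det_fin_two] at h2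
      simp at h2
      exact ⟨b, by rw [hx, h2]; simp⟩
    intro x y
    obtain ⟨b, hx⟩ := key x
    obtain ⟨b', hy⟩ := key y
    have e : ∀ (g g' : A1 K) (b b' : K) (P : Polynomial K), g Polynomial.X = Polynomial.X + Polynomial.C b →
        g' Polynomial.X = Polynomial.X + Polynomial.C b' →
        g (g' P) = P.comp (Polynomial.X + Polynomial.C (b + b')) := by
      intro g g' b b' P hg hg'
      rw [a1_comp g (g' P), a1_comp g' P, hg, hg', Polynomial.comp_assoc]
      congr 1
      simp only [Polynomial.add_comp, Polynomial.X_comp, Polynomial.C_comp, Polynomial.C_add]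
      ring
    apply Subtype.ext
    apply AlgEquiv.ext
    intro P
    change (x : A1 K) ((y : A1 K) P) = (y : A1 K) ((x : A1 K) P)
    rw [e _ _ b b' P hx hy, e _ _ b' b P hy hx, add_comm b b']
  exact Group.isSolvable_of_ker_le_range χ.ker.subtype χ (by rw [Subgroup.range_subtype])

theorem an1_solvable (K : Type) [Field K] : Group.IsSolvable (An (Fin 1) K) := by
  have e : An (Fin 1) K ≃* A1 K := AlgEquiv.autCongr (MvPolynomial.uniqueAlgEquiv K (Fin 1))
  have := a1_solvable K
  exact Group.isSolvable_of_isSolvable_injective (f := e.toMonoidHom) e.injective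

theorem step_one (hC : BCClass C) {P R : Type} [Group P] [CommRing R] [IsDomain R]
    (τ : P →* RingAut R) (φ : P →* RingAut (MvPolynomial (Fin 1) R))
    (hτ : ∀ p r, φ p (MvPolynomial.C r) = MvPolynomial.C (τ p r)) (h : C τ.range) : C φ.range := by
  obtain ⟨s, hs, hsr⟩ := desc (MvPolynomial.C : R →+* MvPolynomial (Fin 1) R) (C_injective _ _) τ φ hτ
  refine hC.ext φ.range τ.range s hs h fun F hF => ?_
  let a : F.comap s →* RingAut (MvPolynomial (Fin 1) R) := φ.range.subtype.comp (F.comap s).subtype
  let u : F.comap s →* F := (s.comp (F.comap s).subtype).codRestrict F fun x => x.2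
  let v : F →* RingAut R := τ.range.subtype.comp F.subtype
  have hh : ∀ g r, a g (MvPolynomial.C r) = MvPolynomial.C (v (u g) r) := fun g r => hsr g.1 r
  have ha : Function.Injective a := (Subgroup.subtype_injective _).comp (Subgroup.subtype_injective _)
  refine hC.vsolv _ u.ker ?_ inferInstance
  have hone : ∀ (g : u.ker) (Q : MvPolynomial (Fin 1) R), lpart a u v hh g Q = a g Q := by
    intro g Q
    have h1 := lpart_map a u v hh g Q
    have h2 : u (g : F.comap s) = 1 := g.2
    have h3 : ((v (u (g : F.comap s)) : R ≃+* R) : R →+* R) = RingHom.id R := by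
      rw [h2, map_one]
      rfl
    rw [h3, MvPolynomial.map_id] at h1
    exact h1
  let j : u.ker →* An (Fin 1) (FractionRing R) :=
    { toFun := fun g => bc (algebraMap R (FractionRing R)) (lpart a u v hh g)
      map_one' := by
        apply an_ext
        intro i
        rw [bc_X, lpart_X]
        exact map_X _ i
      map_mul' := fun g g' => by
        apply an_ext
        intro i
        rw [AlgEquiv.mul_apply, bc_X, bc_X, bc_map, lpart_X, lpart_X, hone]
        rfl }
  have := an1_solvable (FractionRing R)
  refine Group.isSolvable_of_isSolvable_injective (f := j) ?_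
  intro x y hxy
  apply Subtype.ext
  refine ha (lpart_inj a u v hh (bc_injective (IsFractionRing.injective R (FractionRing R)) hxy) ?_)
  exact (MonoidHom.mem_ker.1 x.2).trans (MonoidHom.mem_ker.1 y.2).symm

end Pool.Agent.U74.BCC
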