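import Pool.Agent.U74.BCC.Base
import Pool.Agent.Helper58.EN.JW
import Pool.Agent.Helper58.EN.JV
import Pool.Agent.Helper58.EN.JN

/-!
# Units of rings with identities of small degree
-/

set_option autoImplicit false

namespace Pool.Agent.U74.BCC

open Matrix Pool.Agent.Helper58.EN

variable {C : ∀ (G : Type) [Group G], Prop}

/-- extensions with locally solvable kernels -/
theorem BCClass.lsol (hC : BCClass C) {G P : Type} [Group G] [Group P] (π : G →* P) (hP : C P)
    (hk : ∀ U : Finset G, (∀ u ∈ U, π u = 1) → Group.IsSolvable (Subgroup.closure (U : Set G))) :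
    C G := by
  classical
  refine hC.ext G π.range π.rangeRestrict π.rangeRestrict_surjective
    (hC.sub _ _ π.range.subtype (Subgroup.subtype_injective _) hP) fun F hF => ?_
  refine hC.loc _ fun H hH => ?_
  have hHfg : Group.FG H := (Group.fg_iff_subgroup_fg H).2 hH
  let r : H →* F := ((π.rangeRestrict.comp (Subgroup.subtype _)).comp H.subtype).codRestrict F
    fun x => x.1.2
  refine hC.vsolv _ r.ker ?_ inferInstance
  obtain ⟨U, hU⟩ : r.ker.FG := (Group.fg_iff_subgroup_fg r.ker).1 inferInstance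
  let j : H →* G := (Subgroup.subtype (F.comap π.rangeRestrict)).comp H.subtype
  have hj : Function.Injective j := (Subgroup.subtype_injective _).comp (Subgroup.subtype_injective _)
  have hsol := hk (U.image j) (by
    intro u hu
    obtain ⟨x, hx, rfl⟩ := Finset.mem_image.1 hu
    have h1 : x ∈ r.ker := by
      rw [← hU]
      exact Subgroup.subset_closure hx
    have h2 : r x = 1 := h1
    have h3 := congrArg (fun z : F => ((z : π.range) : P)) h2
    exact h3)
  have hle : ∀ x : r.ker, j x ∈ Subgroup.closure ((U.image j : Finset G) : Set G) := by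
    intro x
    have h1 : (x : H) ∈ Subgroup.closure (U : Set H) := by
      rw [hU]
      exact x.2
    have h2 : Subgroup.closure (U : Set H) ≤
        (Subgroup.closure ((U.image j : Finset G) : Set G)).comap j := by
      rw [Subgroup.closure_le]
      intro y hy
      refine Subgroup.subset_closure ?_
      rw [Finset.coe_image]
      exact ⟨y, hy, rfl⟩
    exact h2 h1
  refine Group.isSolvable_of_isSolvable_injective
    (f := (j.comp r.ker.subtype).codRestrict _ hle) ?_
  intro x y hxy
  have h0 := congrArg Subtype.val hxy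
  have h1 : j (x : H) = j (y : H) := h0
  exact Subtype.ext (hj h1)

/-- matrix units along a staircase -/
def Sm (K : Type) [Field K] (j : ℕ) (a : ℕ) : Matrix (Fin j) (Fin j) K :=
  Matrix.of (fun u v => if u.val = a / 2 ∧ v.val = (a + 1) / 2 then 1 else 0)

theorem prodS {K : Type} [Field K] {j : ℕ} (n : ℕ) : ∀ (s : Fin n → ℕ) (u v : Fin j),
    (List.ofFn (fun i => Sm K j (s i))).prod u v ≠ 0 →
    (∀ (i : ℕ) (h : i + 1 < n), (s ⟨i, by omega⟩ + 1) / 2 = s ⟨i + 1, h⟩ / 2) ∧
      ∀ h : 0 < n, u.val = s ⟨0, h⟩ / 2 := by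
  induction n with
  | zero =>
    intro s u v _
    exact ⟨fun i h => absurd h (by omega), fun h => absurd h (by omega)⟩
  | succ n ih =>
    intro s u v h
    rw [List.ofFn_succ, List.prod_cons, Matrix.mul_apply] at h
    obtain ⟨w, -, hw⟩ := Finset.exists_ne_zero_of_sum_ne_zero h
    have h1 : Sm K j (s 0) u w ≠ 0 := left_ne_zero_of_mul hw
    have h2 := right_ne_zero_of_mul hw
    unfold Sm at h1
    rw [Matrix.of_apply] at h1
    have h3 : u.val = s 0 / 2 ∧ w.val = (s 0 + 1) / 2 := by
      by_contra hne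
      rw [if_neg hne] at h1
      exact h1 rfl
    obtain ⟨h4, h5⟩ := ih (fun i => s i.succ) w v h2
    refine ⟨?_, fun _ => h3.1⟩
    intro i hi
    rcases Nat.eq_zero_or_pos i with rfl | hpos
    · have h6 := h5 (by omega)
      have h7 : (s 0 + 1) / 2 = s ⟨1, hi⟩ / 2 := h3.2.symm.trans h6
      exact h7
    · obtain ⟨k, rfl⟩ : ∃ k, i = k + 1 := ⟨i - 1, by omega⟩
      exact h4 k (by omega)

theorem prodS_one {K : Type} [Field K] {j : ℕ} (n : ℕ) : ∀ (m : ℕ) (u v : Fin j), u.val = m / 2 →
    v.val = (m + n) / 2 → (List.ofFn (fun i : Fin n => Sm K j (m + i.val))).prod u v = 1 := by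
  induction n with
  | zero =>
    intro m u v hu hv
    have : u = v := Fin.ext (by rw [hu, hv]; rfl)
    rw [this]
    simp
  | succ n ih =>
    intro m u v hu hv
    have hv2 := v.2
    rw [List.ofFn_succ, List.prod_cons, Matrix.mul_apply]
    rw [Finset.sum_eq_single (⟨(m + 1) / 2, by omega⟩ : Fin j)]
    · have h1 := ih (m + 1) ⟨(m + 1) / 2, by omega⟩ v rfl (by rw [hv]; congr 1; ring)
      have h2 : (fun i : Fin n => Sm K j (m + (i.succ : Fin (n + 1)).val)) =
          fun i : Fin n => Sm K j (m + 1 + i.val) := by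
        funext i
        congr 1
        rw [Fin.val_succ]
        ring
      rw [h2, h1, mul_one]
      unfold Sm
      rw [Matrix.of_apply, if_pos]
      exact ⟨by rw [hu]; simp, by simp⟩
    · intro w _ hw
      have h1 : Sm K j (m + ((0 : Fin (n + 1)) : ℕ)) u w = 0 := by
        unfold Sm
        rw [Matrix.of_apply, if_neg]
        rintro ⟨-, h2⟩
        exact hw (Fin.ext (by rw [h2]; simp))
      rw [h1, zero_mul]
    · intro h
      exact absurd (Finset.mem_univ _) h

theorem perm_one {d : ℕ} (σ : Equiv.Perm (Fin d))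
    (h : ∀ (i : ℕ) (h : i + 1 < d), ((σ ⟨i, by omega⟩).val + 1) / 2 = (σ ⟨i + 1, h⟩).val / 2) : σ = 1 := by
  have h1 : ∀ (i : ℕ) (h : i + 1 < d), (σ ⟨i, by omega⟩).val < (σ ⟨i + 1, h⟩).val := by
    intro i hi
    have h2 := h i hi
    have h3 : (σ ⟨i, by omega⟩).val ≠ (σ ⟨i + 1, hi⟩).val := by
      intro h4
      have h5 := σ.injective (Fin.ext h4)
      have h6 := congrArg Fin.val h5
      simp at h6
    omega
  have h2 : ∀ (k i : ℕ) (hk : i + k < d), (σ ⟨i, by omega⟩).val + k ≤ (σ ⟨i + k, hk⟩).val := by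
    intro k
    induction k with
    | zero =>
      intro i hk
      exact le_rfl
    | succ k ih =>
      intro i hk
      have h3 := ih i (by omega)
      have h4 := h1 (i + k) (by omega)
      have h5 : (σ ⟨i + k + 1, by omega⟩).val = (σ ⟨i + (k + 1), hk⟩).val := rfl
      omega
  ext i
  have hi := i.2
  have h3 := h2 i.val 0 (by omega)
  have h4 := h2 (d - 1 - i.val) i.val (by omega)
  have e1 : (⟨0 + i.val, by omega⟩ : Fin d) = i := Fin.ext (by simp)
  have h5 : (σ ⟨i.val + (d - 1 - i.val), by omega⟩).val < d := Fin.isLt _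
  have e2 : (⟨i.val, by omega⟩ : Fin d) = i := rfl
  rw [e1] at h3
  rw [e2] at h4
  show (σ i).val = i.val
  omega

/-- the dimensions of the representations of rings with an identity of degree at most five -/
theorem rep_two {R : Type} [Ring R] (d : ℕ) (hd : d ≤ 5) (c : Equiv.Perm (Fin d) → ℤ) (hc : c 1 = 1)
    (hPI : PI d c R) {K : Type} [Field K] {j : ℕ} (φ : R →+* Matrix (Fin j) (Fin j) K)
    (hφ : Submodule.span K (Set.range φ) = ⊤) : j ≤ 2 := by
  by_contra hcon
  push Not at hcon
  have h1 := idMap_zero d c hPI φ hφ d le_rfl (fun i => Sm K j i.val) (fun i hi => by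
    have := i.2; omega)
  rw [idMap_apply] at h1
  have h2 := congrFun (congrFun h1 ⟨0, by omega⟩) ⟨d / 2, by omega⟩
  rw [Matrix.sum_apply] at h2
  have h3 : ∀ σ : Equiv.Perm (Fin d), (((c σ : ℤ) : K) •
      (List.ofFn (fun i => Sm K j (σ i).val)).prod) ⟨0, by omega⟩ ⟨d / 2, by omega⟩ =
      if σ = 1 then 1 else 0 := by
    intro σ
    rw [Matrix.smul_apply]
    by_cases hσ : σ = 1
    · subst hσ
      rw [if_pos rfl, hc]
      have h4 := prodS_one (K := K) (j := j) d 0 ⟨0, by omega⟩ ⟨d / 2, by omega⟩ rfl (by simp)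
      simp only [zero_add] at h4
      have h5 : (List.ofFn (fun i : Fin d => Sm K j ((1 : Equiv.Perm (Fin d)) i).val)).prod
          ⟨0, by omega⟩ ⟨d / 2, by omega⟩ = 1 := h4
      rw [h5]
      simp
    · rw [if_neg hσ]
      have h4 : (List.ofFn (fun i => Sm K j (σ i).val)).prod ⟨0, by omega⟩ ⟨d / 2, by omega⟩ = 0 := by
        by_contra hne
        exact hσ (perm_one σ (prodS d (fun i => (σ i).val) _ _ hne).1)
      rw [h4, smul_zero]
  rw [Finset.sum_congr rfl (fun σ _ => h3 σ), Finset.sum_ite_eq' Finset.univ,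
    if_pos (Finset.mem_univ _)] at h2
  simp at h2

/-- the class of the rings which are a locally nilpotent extension of a ring with an identity of degree
at most five -/
def Five (R : Type) [Ring R] : Prop :=
  ∃ (S : Type) (_ : Ring S) (f : R →+* S) (d : ℕ) (c : Equiv.Perm (Fin d) → ℤ),
    d ≤ 5 ∧ c 1 = 1 ∧ PI d c S ∧ LN {x : R | f x = 0}

theorem PI_surj' {d : ℕ} {c : Equiv.Perm (Fin d) → ℤ} {A B : Type} [Ring A] [Ring B] (f : A →+* B)
    (hf : Function.Surjective f) (h : PI d c A) : PI d c B := by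
  intro x
  choose y hy using fun i => hf (x i)
  have h1 := congrArg f (h y)
  rw [map_zero, map_sum] at h1
  rw [← h1]
  refine Finset.sum_congr rfl fun σ _ => ?_
  rw [map_mul, map_intCast, map_list_prod, List.map_ofFn]
  have h2 : (f ∘ fun i => y (σ i)) = fun i => x (σ i) := by
    funext i
    exact hy (σ i)
  rw [h2]

/-- a homomorphism to the `2 × 2` matrices over a commutative ring with locally nilpotent kernel -/
theorem Five.hom {R : Type} [Ring R] (h : Five R) : ∃ (T : Type) (_ : CommRing T)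
    (g : R →+* Matrix (Fin 2) (Fin 2) T), LN ((RingHom.ker g : Ideal R) : Set R) := by
  classical
  obtain ⟨S, _, f, d, c, hd, hc, hPI, hLN⟩ := h
  obtain ⟨L, hL2, hLLN, hL0⟩ := exists_levitzki S
  have hPI' : PI d c (S ⧸ L) := PI_surj' (Ideal.Quotient.mk L) Ideal.Quotient.mk_surjective hPI
  have hrep : ∀ t : {t : S ⧸ L // t ≠ 0}, ∃ (K : Type) (_ : Field K)
      (φ : (S ⧸ L) →+* Matrix (Fin 2) (Fin 2) K), φ t ≠ 0 := by
    rintro ⟨t, ht⟩
    obtain ⟨K, hK, j, ψ, hψ, hψ2⟩ := exists_rep d c hc hPI' hL0 t ht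
    have hj : j ≤ 2 := rep_two d hd c hc hPI' ψ hψ
    have h3 : j = 0 ∨ j = 1 ∨ j = 2 := by omega
    rcases h3 with rfl | rfl | rfl
    · exfalso
      apply hψ2
      ext a b
      exact a.elim0
    · refine ⟨K, hK, (Matrix.scalar (Fin 2)).comp
        ((Matrix.uniqueRingEquiv : Matrix (Fin 1) (Fin 1) K ≃+* K).toRingHom.comp ψ), ?_⟩
      intro h0
      apply hψ2
      have h4 := congrFun (congrFun h0 0) 0
      simpa using h4
    · exact ⟨K, hK, ψ, hψ2⟩
  choose K instK φ hφ using hrep
  let g : (S ⧸ L) →+* Matrix (Fin 2) (Fin 2) (∀ x : {t : S ⧸ L // t ≠ 0}, K x) :=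
    { toFun := fun t => Matrix.of fun a b x => φ x t a b
      map_one' := by
        ext a b x
        rw [Matrix.of_apply, map_one, Matrix.one_apply, Matrix.one_apply]
        split_ifs <;> rfl
      map_mul' := by
        intro s t
        ext a b x
        rw [Matrix.of_apply, map_mul, Matrix.mul_apply, Matrix.mul_apply, Finset.sum_apply]
        rfl
      map_zero' := by
        ext a b x
        rw [Matrix.of_apply, map_zero]
        rfl
      map_add' := by
        intro s t
        ext a b x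
        rw [Matrix.of_apply, map_add]
        rfl }
  have hg : ∀ t : S ⧸ L, g t = 0 → t = 0 := by
    intro t ht
    by_contra hne
    apply hφ ⟨t, hne⟩
    ext a b
    exact congrFun (congrFun (congrFun ht a) b) ⟨t, hne⟩
  refine ⟨∀ x : {t : S ⧸ L // t ≠ 0}, K x, inferInstance,
    (g.comp (Ideal.Quotient.mk L)).comp f, ?_⟩
  refine LN_ext hLN ?_
  intro X hX
  obtain ⟨N, hN⟩ := hLLN (X.image f) (by
    intro y hy
    rw [Finset.coe_image] at hy
    obtain ⟨x, hx, rfl⟩ := hy
    exact Ideal.Quotient.eq_zero_iff_mem.mp (hg _ (hX hx)))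
  refine ⟨N, fun l hl hlen => ?_⟩
  show f l.prod = 0
  rw [map_list_prod]
  refine hN _ ?_ (by rw [List.length_map, hlen])
  intro y hy
  rw [List.mem_map] at hy
  obtain ⟨x, hx, rfl⟩ := hy
  exact Finset.mem_image_of_mem _ (hl x hx)

theorem units_five (hC : BCClass C) {R : Type} [Ring R] (h : Five R) : C Rˣ := by
  obtain ⟨T, _, g, hg⟩ := h.hom
  refine hC.lsol (Units.map g.toMonoidHom : Rˣ →* Matrix.GeneralLinearGroup (Fin 2) T)
    (gl2_ring hC T) fun U hU => ?_
  refine ln_solvable (RingHom.ker g) hg U fun u hu => ?_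
  have h1 := congrArg Units.val (hU u hu)
  rw [RingHom.mem_ker, map_sub, map_one, sub_eq_zero]
  exact h1

/-- **units of rings which are locally (locally nilpotent by an identity of degree at most five)** -/
theorem units_locally_five (hC : BCClass C) (A : Type) [Ring A]
    (hA : ∀ Y : Finset A, Five (Subring.closure (Y : Set A))) : C Aˣ := by
  classical
  refine hC.loc _ fun H hH => ?_
  obtain ⟨U, hU⟩ := hH
  obtain ⟨Y, hY⟩ : ∃ Y : Finset A, Y = U.image (fun u : Aˣ => (u : A)) ∪
    U.image (fun u : Aˣ => ((u⁻¹ : Aˣ) : A)) := ⟨_, rfl⟩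
  obtain ⟨B, hB⟩ : ∃ B : Subring A, B = Subring.closure (Y : Set A) := ⟨_, rfl⟩
  have hB5 : Five B := by
    rw [hB]
    exact hA Y
  have hle : H ≤ (Units.map (B.subtype : B →+* A).toMonoidHom).range := by
    rw [← hU, Subgroup.closure_le]
    intro u hu
    have h1 : (u : A) ∈ B := by
      rw [hB]
      apply Subring.subset_closure
      rw [hY, Finset.coe_union]
      exact Or.inl (Finset.mem_coe.2 (Finset.mem_image_of_mem (fun u : Aˣ => (u : A)) hu))
    have h2 : ((u⁻¹ : Aˣ) : A) ∈ B := by
      rw [hB]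
      apply Subring.subset_closure
      rw [hY, Finset.coe_union]
      exact Or.inr (Finset.mem_coe.2 (Finset.mem_image_of_mem (fun u : Aˣ => ((u⁻¹ : Aˣ) : A)) hu))
    exact ⟨⟨⟨u, h1⟩, ⟨_, h2⟩, Subtype.ext (Units.mul_inv u), Subtype.ext (Units.inv_mul u)⟩,
      Units.ext rfl⟩
  have hinj : Function.Injective (Units.map (B.subtype : B →+* A).toMonoidHom) := by
    intro x y hxy
    exact Units.ext (Subtype.ext (congrArg Units.val hxy))
  refine hC.sub _ _ ((MonoidHom.ofInjective hinj).symm.toMonoidHom.comp (Subgroup.inclusion hle)) ?_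
    (units_five hC hB5)
  exact (MonoidHom.ofInjective hinj).symm.injective.comp (Subgroup.inclusion_injective _)

end Pool.Agent.U74.BCC
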