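import Pool.Agent.U74.BCC.Five

/-!
# Automorphisms of modules with a chain of submodules whose quotients are generated by two elements
-/

set_option autoImplicit false

namespace Pool.Agent.U74.BCC

open Pool.Agent.Helper58.EN

variable {C : ∀ (G : Type) [Group G], Prop}

theorem pi_mat2 (R : Type) [CommRing R] :
    PI 5 (fun σ => ((Equiv.Perm.sign σ : ℤˣ) : ℤ)) (Matrix (Fin 2) (Fin 2) R) := by
  intro x
  have h0 : (MultilinearMap.alternatization
      (MultilinearMap.mkPiAlgebraFin R 5 (Matrix (Fin 2) (Fin 2) R)) :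
      (Matrix (Fin 2) (Fin 2) R) [⋀^Fin 5]→ₗ[R] (Matrix (Fin 2) (Fin 2) R)) = 0 := by
    refine Module.Basis.ext_alternating (Matrix.stdBasis R (Fin 2) (Fin 2)) ?_
    intro v hv
    exfalso
    have := Fintype.card_le_of_injective v hv
    rw [Fintype.card_fin, Fintype.card_prod, Fintype.card_fin] at this
    omega
  have h1 := congrArg (fun F : (Matrix (Fin 2) (Fin 2) R) [⋀^Fin 5]→ₗ[R] (Matrix (Fin 2) (Fin 2) R) =>
    F x) h0
  simp only [MultilinearMap.alternatization_apply, AlternatingMap.zero_apply] at h1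
  rw [← h1]
  refine Finset.sum_congr rfl fun σ _ => ?_
  rw [MultilinearMap.domDomCongr_apply, MultilinearMap.mkPiAlgebraFin_apply, Units.smul_def,
    zsmul_eq_mul]

section flag

variable {R M : Type} [CommRing R] [AddCommGroup M] [Module R M]

/-- the combinations of two elements -/
def cmb (a b : M) : (Fin 2 → R) →ₗ[R] M where
  toFun v := v 0 • a + v 1 • b
  map_add' v w := by
    simp only [Pi.add_apply, add_smul]
    abel
  map_smul' r v := by
    simp only [Pi.smul_apply, smul_eq_mul, mul_smul, smul_add, RingHom.id_apply]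

theorem list_red {κ : Type} (N : Submodule R M) (a b : M) (x : κ → Module.End R M)
    (X : κ → Matrix (Fin 2) (Fin 2) R) (hN : ∀ k, ∀ z ∈ N, x k z ∈ N)
    (hx : ∀ k v, x k (cmb a b v) - cmb a b ((X k).mulVec v) ∈ N) (l : List κ) :
    ∀ v : Fin 2 → R, (l.map x).prod (cmb a b v) - cmb a b ((l.map X).prod.mulVec v) ∈ N := by
  induction l with
  | nil =>
    intro v
    simp
  | cons k l ih =>
    intro v
    rw [List.map_cons, List.prod_cons, List.map_cons, List.prod_cons, Module.End.mul_apply,
      ← Matrix.mulVec_mulVec]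
    have h1 := hN k _ (ih v)
    have h2 := hx k ((l.map X).prod.mulVec v)
    rw [map_sub] at h1
    have h3 := N.add_mem h1 h2
    rwa [sub_add_sub_cancel] at h3

theorem id_red (N : Submodule R M) (a b : M) (x : Fin 5 → Module.End R M)
    (X : Fin 5 → Matrix (Fin 2) (Fin 2) R) (hN : ∀ k, ∀ z ∈ N, x k z ∈ N)
    (hx : ∀ k v, x k (cmb a b v) - cmb a b ((X k).mulVec v) ∈ N) (v : Fin 2 → R) :
    (∑ σ : Equiv.Perm (Fin 5), ((((Equiv.Perm.sign σ : ℤˣ) : ℤ) : ℤ) : Module.End R M) *
      (List.ofFn (fun i => x (σ i))).prod) (cmb a b v) ∈ N := by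
  have h0 := congrArg (fun Y : Matrix (Fin 2) (Fin 2) R => cmb a b (Y.mulVec v)) (pi_mat2 R X)
  simp only [Matrix.zero_mulVec, map_zero, Matrix.sum_mulVec, map_sum] at h0
  have h1 : (∑ σ : Equiv.Perm (Fin 5), ((((Equiv.Perm.sign σ : ℤˣ) : ℤ) : ℤ) : Module.End R M) *
      (List.ofFn (fun i => x (σ i))).prod) (cmb a b v) =
      ∑ σ : Equiv.Perm (Fin 5), ((Equiv.Perm.sign σ : ℤˣ) : ℤ) •
        ((List.ofFn (fun i => x (σ i))).prod (cmb a b v)) := by
    rw [LinearMap.sum_apply]
    refine Finset.sum_congr rfl fun σ _ => ?_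
    rw [Module.End.mul_apply, Module.End.intCast_apply]
  have h2 : ∀ σ : Equiv.Perm (Fin 5), cmb a b
      ((((((Equiv.Perm.sign σ : ℤˣ) : ℤ) : ℤ) : Matrix (Fin 2) (Fin 2) R) *
        (List.ofFn (fun i => X (σ i))).prod).mulVec v) =
      ((Equiv.Perm.sign σ : ℤˣ) : ℤ) • cmb a b ((List.ofFn (fun i => X (σ i))).prod.mulVec v) := by
    intro σ
    rw [← zsmul_eq_mul, ← map_zsmul]
    congr 1
    rw [← Int.cast_smul_eq_zsmul R, Matrix.smul_mulVec, Int.cast_smul_eq_zsmul]
  rw [Finset.sum_congr rfl fun σ _ => h2 σ] at h0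
  rw [h1, ← sub_zero (∑ σ : Equiv.Perm (Fin 5), _), ← h0, ← Finset.sum_sub_distrib]
  refine N.sum_mem fun σ _ => ?_
  rw [← smul_sub]
  refine N.toAddSubgroup.zsmul_mem ?_ _
  have h3 := list_red N a b x X hN hx (List.ofFn σ) v
  rw [List.map_ofFn, List.map_ofFn] at h3
  exact h3

/-- the ring of the endomorphisms preserving a chain -/
def Er (N : ℕ → Submodule R M) (n : ℕ) : Subring (Module.End R M) where
  carrier := {f | ∀ i ≤ n, ∀ z ∈ N i, f z ∈ N i}
  one_mem' := fun i _ z hz => hz
  mul_mem' := fun {f g} hf hg i hi z hz => hf i hi _ (hg i hi z hz)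
  zero_mem' := fun i _ z _ => (N i).zero_mem
  add_mem' := fun {f g} hf hg i hi z hz => (N i).add_mem (hf i hi z hz) (hg i hi z hz)
  neg_mem' := fun {f} hf i hi z hz => (N i).neg_mem (hf i hi z hz)

/-- the ideal of the endomorphisms acting trivially on the quotients -/
def Jr (N : ℕ → Submodule R M) (n : ℕ) : Ideal (Er N n) where
  carrier := {f | ∀ i < n, ∀ z ∈ N (i + 1), (f : Module.End R M) z ∈ N i}
  add_mem' := fun {f g} hf hg i hi z hz => (N i).add_mem (hf i hi z hz) (hg i hi z hz)
  zero_mem' := fun i _ z _ => (N i).zero_mem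
  smul_mem' := fun f g hg i hi z hz => f.2 i hi.le _ (hg i hi z hz)

instance Jr_two (N : ℕ → Submodule R M) (n : ℕ) : (Jr N n).IsTwoSided :=
  ⟨fun {a} b ha i hi z hz => ha i hi _ (b.2 (i + 1) hi z hz)⟩

theorem Jr_LN (N : ℕ → Submodule R M) (n : ℕ) (h0 : N 0 = ⊥) (hn : N n = ⊤) :
    LN (Jr N n : Set (Er N n)) := by
  intro X hX
  have key : ∀ (l : List (Er N n)), (∀ x ∈ l, x ∈ X) → ∀ (k : ℕ), k + l.length ≤ n →
      ∀ z ∈ N (k + l.length), (l.prod : Module.End R M) z ∈ N k := by
    intro l
    induction l with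
    | nil =>
      intro _ k _ z hz
      exact hz
    | cons e l ih =>
      intro hl k hk z hz
      rw [List.length_cons] at hk hz
      have h1 := ih (fun y hy => hl y (List.mem_cons_of_mem _ hy)) (k + 1) (by omega) z
        (by rwa [show k + 1 + l.length = k + (l.length + 1) by omega])
      have h2 : e ∈ Jr N n := hX (Finset.mem_coe.mpr (hl e List.mem_cons_self))
      rw [List.prod_cons]
      exact h2 k (by omega) _ h1
  refine ⟨n, fun l hl hlen => ?_⟩
  apply Subtype.ext
  apply LinearMap.ext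
  intro z
  have h1 := key l hl 0 (by omega) z (by rw [hlen, zero_add, hn]; trivial)
  rw [h0, Submodule.mem_bot] at h1
  exact h1

theorem Er_five (N : ℕ → Submodule R M) (n : ℕ) (h0 : N 0 = ⊥) (hn : N n = ⊤)
    (hab : ∀ i < n, ∃ a b : M, N (i + 1) = N i ⊔ Submodule.span R {a, b}) : Five (Er N n) := by
  refine ⟨Er N n ⧸ Jr N n, inferInstance, Ideal.Quotient.mk (Jr N n), 5,
    (fun σ => ((Equiv.Perm.sign σ : ℤˣ) : ℤ)), le_rfl, by simp, ?_, ?_⟩
  · intro y
    choose x hx using fun i => Ideal.Quotient.mk_surjective (y i)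
    have h1 : (∑ σ : Equiv.Perm (Fin 5), ((((Equiv.Perm.sign σ : ℤˣ) : ℤ) : ℤ) : Er N n) *
        (List.ofFn (fun i => x (σ i))).prod) ∈ Jr N n := by
      intro i hi z hz
      obtain ⟨a, b, hN⟩ := hab i hi
      have hco : (((∑ σ : Equiv.Perm (Fin 5), ((((Equiv.Perm.sign σ : ℤˣ) : ℤ) : ℤ) : Er N n) *
          (List.ofFn (fun i => x (σ i))).prod) : Er N n) : Module.End R M) =
          ∑ σ : Equiv.Perm (Fin 5), ((((Equiv.Perm.sign σ : ℤˣ) : ℤ) : ℤ) : Module.End R M) *
          (List.ofFn (fun i => (x (σ i) : Module.End R M))).prod := by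
        have h2 := map_sum (Er N n).subtype (fun σ : Equiv.Perm (Fin 5) =>
          ((((Equiv.Perm.sign σ : ℤˣ) : ℤ) : ℤ) : Er N n) * (List.ofFn (fun i => x (σ i))).prod)
          Finset.univ
        refine h2.trans (Finset.sum_congr rfl fun σ _ => ?_)
        rw [map_mul, map_intCast, map_list_prod, List.map_ofFn]
        rfl
      have hex : ∀ k : Fin 5, ∀ c : M, c ∈ N (i + 1) → ∃ r s : R,
          (x k : Module.End R M) c - (r • a + s • b) ∈ N i := by
        intro k c hc
        have h3 := (x k).2 (i + 1) hi c hc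
        rw [hN, Submodule.mem_sup] at h3
        obtain ⟨p, hp, q, hq, hpq⟩ := h3
        obtain ⟨r, s, hrs⟩ := Submodule.mem_span_pair.1 hq
        refine ⟨r, s, ?_⟩
        rw [hrs, ← hpq, add_sub_cancel_right]
        exact hp
      have ha : a ∈ N (i + 1) := by
        rw [hN]
        exact Submodule.mem_sup_right (Submodule.subset_span (by simp))
      have hb : b ∈ N (i + 1) := by
        rw [hN]
        exact Submodule.mem_sup_right (Submodule.subset_span (by simp))
      choose ra sa hA using fun k => hex k a ha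
      choose rb sb hB using fun k => hex k b hb
      have hred := id_red (N i) a b (fun k => (x k : Module.End R M))
        (fun k => !![ra k, rb k; sa k, sb k]) (fun k z hz => (x k).2 i hi.le z hz) (fun k v => by
          have h4 := (N i).add_mem ((N i).smul_mem (v 0) (hA k)) ((N i).smul_mem (v 1) (hB k))
          have h5 : (x k : Module.End R M) (cmb a b v) -
              cmb a b ((!![ra k, rb k; sa k, sb k] : Matrix (Fin 2) (Fin 2) R).mulVec v) =
              v 0 • ((x k : Module.End R M) a - (ra k • a + sa k • b)) +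
              v 1 • ((x k : Module.End R M) b - (rb k • a + sb k • b)) := by
            simp only [cmb, LinearMap.coe_mk, AddHom.coe_mk, map_add, map_smul, Matrix.mulVec,
              dotProduct, Fin.sum_univ_two, Matrix.of_apply, Matrix.cons_val', Matrix.cons_val_zero,
              Matrix.cons_val_one, Matrix.cons_val_fin_one]
            module
          rw [h5]
          exact h4)
      rw [hco]
      rw [hN, Submodule.mem_sup] at hz
      obtain ⟨p, hp, q, hq, rfl⟩ := hz
      obtain ⟨r, s, hrs⟩ := Submodule.mem_span_pair.1 hq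
      rw [map_add]
      refine (N i).add_mem ?_ ?_
      · rw [← hco]
        exact ((∑ σ : Equiv.Perm (Fin 5), ((((Equiv.Perm.sign σ : ℤˣ) : ℤ) : ℤ) : Er N n) *
          (List.ofFn (fun i => x (σ i))).prod) : Er N n).2 i hi.le p hp
      · have h6 : q = cmb a b ![r, s] := by
          rw [← hrs]
          simp [cmb]
        rw [h6]
        exact hred _
    have h2 := (Ideal.Quotient.eq_zero_iff_mem).2 h1
    rw [map_sum] at h2
    rw [← h2]
    refine Finset.sum_congr rfl fun σ _ => ?_
    rw [map_mul, map_intCast, map_list_prod, List.map_ofFn]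
    have h3 : ((Ideal.Quotient.mk (Jr N n)) ∘ fun i => x (σ i)) = fun i => y (σ i) := by
      funext i
      exact hx (σ i)
    rw [h3]
  · have h3 : {x : Er N n | Ideal.Quotient.mk (Jr N n) x = 0} = (Jr N n : Set (Er N n)) := by
      ext x
      exact Ideal.Quotient.eq_zero_iff_mem
    rw [h3]
    exact Jr_LN N n h0 hn

theorem c_chain (hC : BCClass C) (N : ℕ → Submodule R M) (n : ℕ) (h0 : N 0 = ⊥) (hn : N n = ⊤)
    (hab : ∀ i < n, ∃ a b : M, N (i + 1) = N i ⊔ Submodule.span R {a, b}) {G : Type} [Group G]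
    (ρ : G →* (Module.End R M)ˣ) (hρ : ∀ g, ∀ i ≤ n, ∀ z ∈ N i, (ρ g : Module.End R M) z ∈ N i)
    (hk : Group.IsSolvable ρ.ker) : C G := by
  let π : G →* (Er N n)ˣ := MonoidHom.toHomUnits
    { toFun := fun g => (⟨(ρ g : Module.End R M), hρ g⟩ : Er N n)
      map_one' := by
        apply Subtype.ext
        change ((ρ 1 : (Module.End R M)ˣ) : Module.End R M) = 1
        rw [map_one]
        rfl
      map_mul' := fun g g' => by
        apply Subtype.ext
        change ((ρ (g * g') : (Module.End R M)ˣ) : Module.End R M) = _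
        rw [map_mul]
        rfl }
  refine hC.sol π (units_five hC (Er_five N n h0 hn hab)) ?_
  have hle : π.ker ≤ ρ.ker := by
    intro g hg
    have h1 := congrArg (fun u : (Er N n)ˣ => ((u : Er N n) : Module.End R M)) ((MonoidHom.mem_ker).1 hg)
    exact (MonoidHom.mem_ker).2 (Units.ext h1)
  exact Group.isSolvable_of_isSolvable_injective (f := Subgroup.inclusion hle)
    (Subgroup.inclusion_injective _)

end flag

end Pool.Agent.U74.BCC
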