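import Pool.Agent.U74.BCC.Base
import Pool.Agent.U670.GEMain

/-!
# Groups generated by two subgroups with level functions, `GE_2` of rings with a degree function
-/

set_option autoImplicit false

namespace Pool.Agent.U74.BCC

open Pool.Agent.U670.AT Pool.Agent.U670.GE

variable {C : ∀ (G : Type) [Group G], Prop}

theorem lev_bc (hC : BCClass C) {Γ : Type} [Group Γ] {A B : Subgroup Γ} {lA lB : Γ → ℕ}
    (h : Lev A B lA lB) (hA : C A) (hB : C B) : C (GG A B) := by
  refine hC.tree (GG A B) (Vt A B) (tr A B) (tr_tree h) (fun g u v huv => tr_act g u v huv)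
    (fun g u v huv => tr_inv g u v huv) fun v => ?_
  rcases cases_v v with ⟨g, rfl⟩ | ⟨g, rfl⟩
  · let f : ↥(MulAction.stabilizer (GG A B) (vA A B g)) →* A :=
      { toFun := fun x => ⟨(g : Γ)⁻¹ * ((x : GG A B) : Γ) * (g : Γ), fixA x.2⟩
        map_one' := by
          apply Subtype.ext
          simp
        map_mul' := fun x y => by
          apply Subtype.ext
          simp only [Subgroup.coe_mul]
          group }
    refine hC.sub _ _ f ?_ hA
    intro x y hxy
    have h1 := congrArg Subtype.val hxy
    have h2 : (g : Γ)⁻¹ * ((x : GG A B) : Γ) * (g : Γ) =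
        (g : Γ)⁻¹ * ((y : GG A B) : Γ) * (g : Γ) := h1
    have h3 := mul_left_cancel (mul_right_cancel h2)
    exact Subtype.ext (Subtype.ext h3)
  · let f : ↥(MulAction.stabilizer (GG A B) (vB A B g)) →* B :=
      { toFun := fun x => ⟨(g : Γ)⁻¹ * ((x : GG A B) : Γ) * (g : Γ), fixB x.2⟩
        map_one' := by
          apply Subtype.ext
          simp
        map_mul' := fun x y => by
          apply Subtype.ext
          simp only [Subgroup.coe_mul]
          group }
    refine hC.sub _ _ f ?_ hB
    intro x y hxy
    have h1 := congrArg Subtype.val hxy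
    have h2 : (g : Γ)⁻¹ * ((x : GG A B) : Γ) * (g : Γ) =
        (g : Γ)⁻¹ * ((y : GG A B) : Γ) * (g : Γ) := h1
    have h3 := mul_left_cancel (mul_right_cancel h2)
    exact Subtype.ext (Subtype.ext h3)

theorem ge2_bc (hC : BCClass C) {K R : Type} [Field K] [Ring R] [Algebra K R] {deg : R → ℕ}
    (hd : IsDegree K R deg) : C ↥(GE2 R) := by
  rcases subsingleton_or_nontrivial R with hR | hR
  · have hs : Subsingleton ↥(GE2 R) := ⟨fun x y => by
      apply Subtype.ext
      apply Units.ext
      ext i j
      exact Subsingleton.elim _ _⟩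
    exact hC.fin inferInstance
  · have hinj : Function.Injective (cst K R) := by
      intro x y hxy
      apply Units.ext
      ext i j
      have h1 := congrArg (fun z : M2 R => z.val i j) hxy
      simp only [cst_val] at h1
      exact (algebraMap K R).injective h1
    have hA : C (A0 K R) := hC.sub _ _ (MonoidHom.ofInjective hinj).symm.toMonoidHom
      (MonoidHom.ofInjective hinj).symm.injective (hC.gl2 K)
    have hB : C (B0 K R) := by
      refine hC.vsolv _ ⊤ ?_ inferInstance
      have := B0_solvable (K := K) (R := R)
      exact Group.isSolvable_of_isSolvable_injective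
        (f := (Subgroup.topEquiv : (⊤ : Subgroup (B0 K R)) ≃* B0 K R).toMonoidHom)
        (Subgroup.topEquiv : (⊤ : Subgroup (B0 K R)) ≃* B0 K R).injective
    exact hC.sub _ _ (Subgroup.inclusion (GE2_le hd)) (Subgroup.inclusion_injective _)
      (lev_bc hC (lev hd) hA hB)

end Pool.Agent.U74.BCC
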