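import Pool.Agent.U74.BCC.Five
import Pool.Agent.U74.BCC.Tr

/-!
# `GE_2` of locally nilpotent extensions of rings with a degree function
-/

set_option autoImplicit false

namespace Pool.Agent.U74.BCC.GN

open Pool.Agent.Helper58.EN Pool.Agent.U670.GE Pool.Agent.U74.BCC

theorem LN_mono {R : Type} [Ring R] {I J : Set R} (hJ : LN J) (h : I ⊆ J) : LN I :=
  fun X hX => hJ X (hX.trans h)

/-- entries of products -/
theorem matrix_prod_mem {R : Type} [Ring R] {n : ℕ} (X : Finset (Matrix (Fin n) (Fin n) R))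
    (Y : Finset R) (hY : ∀ x ∈ X, ∀ i j, x i j ∈ Y) : ∀ (l : List (Matrix (Fin n) (Fin n) R)),
    (∀ x ∈ l, x ∈ X) → ∀ i j, l.prod i j ∈ JP Y l.length := by
  intro l
  induction l with
  | nil =>
    intro _ i j
    rw [List.prod_nil, List.length_nil, Matrix.one_apply]
    split_ifs
    · exact AddSubgroup.subset_closure ⟨[], by simp, by simp, by simp⟩
    · exact zero_mem _
  | cons x l ih =>
    intro h i j
    rw [List.prod_cons, Matrix.mul_apply]
    refine sum_mem fun k _ => ?_
    have h1 : x i k ∈ JP Y 1 := AddSubgroup.subset_closure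
      ⟨[x i k], by simpa using hY x (h x (by simp)) i k, by simp, by simp⟩
    have h2 := JP_mul Y 1 l.length h1 (ih (fun y hy => h y (by simp [hy])) k j)
    rwa [List.length_cons, add_comm l.length 1]

theorem LN_matrix {R : Type} [Ring R] (n : ℕ) {J : Set R} (hJ : LN J) :
    LN {x : Matrix (Fin n) (Fin n) R | ∀ i j, x i j ∈ J} := by
  classical
  intro X hX
  let Y : Finset R := X.biUnion fun x => Finset.univ.biUnion fun i => Finset.univ.image fun j =>
    x i j
  have hY : ∀ x ∈ X, ∀ i j, x i j ∈ Y := by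
    intro x hx i j
    simp only [Y, Finset.mem_biUnion, Finset.mem_image, Finset.mem_univ, true_and]
    exact ⟨x, hx, i, j, rfl⟩
  obtain ⟨N, hN⟩ := hJ Y (by
    intro y hy
    simp only [Y, Finset.coe_biUnion, Set.mem_iUnion, Finset.mem_coe, Finset.mem_image,
      Finset.mem_univ, true_and] at hy
    obtain ⟨x, hx, i, _, j, rfl⟩ := hy
    exact hX hx i j)
  refine ⟨N, fun l hl hlen => ?_⟩
  ext i j
  have h := matrix_prod_mem X Y hY l hl i j
  rw [hlen] at h
  exact JP_bot Y N hN h


variable {C : ∀ (G : Type) [Group G], Prop}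

/-- the induced homomorphism of the groups of invertible matrices -/
def mp {B A : Type} [Ring B] [Ring A] (h : B →+* A) :
    (Matrix (Fin 2) (Fin 2) B)ˣ →* (Matrix (Fin 2) (Fin 2) A)ˣ :=
  Units.map (h.mapMatrix : Matrix (Fin 2) (Fin 2) B →+* Matrix (Fin 2) (Fin 2) A).toMonoidHom

theorem main (hC : BCClass C) (B : Type) [Ring B] (n : ℕ) (A : Fin n → Type) [∀ i, Ring (A i)]
    (hA : ∀ i, C ↥(GE2 (A i))) (h : ∀ i, B →+* A i) (hL : LN {b : B | ∀ i, h i b = 0})
    (H : Subgroup (Matrix (Fin 2) (Fin 2) B)ˣ) (hH : ∀ i, ∀ g ∈ H, mp (h i) g ∈ GE2 (A i)) : C H := by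
  classical
  obtain ⟨P, _, φ, hP, hφ⟩ := hC.multi Finset.univ (fun i => ↥(GE2 (A i)))
    (fun i => ((mp (h i)).comp H.subtype).codRestrict (GE2 (A i)) fun g => hH i g g.2) hA
  refine hC.lsol φ hP fun U hU => ?_
  let ψ : Matrix (Fin 2) (Fin 2) B →+* ∀ i, Matrix (Fin 2) (Fin 2) (A i) :=
    RingHom.pi fun i => (h i).mapMatrix
  have hJ : LN ((RingHom.ker ψ : Ideal _) : Set (Matrix (Fin 2) (Fin 2) B)) := by
    refine LN_mono (LN_matrix 2 hL) ?_
    intro x hx a b i
    have h1 : ψ x = 0 := hx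
    have h2 := congrFun h1 i
    exact congrFun (congrFun h2 a) b
  have hsol := ln_solvable (RingHom.ker ψ) hJ (U.image fun u : H => (u : (Matrix (Fin 2) (Fin 2) B)ˣ))
    (by
      intro u hu
      obtain ⟨x, hx, rfl⟩ := Finset.mem_image.1 hu
      have h1 := (hφ x).1 (hU x hx)
      rw [RingHom.mem_ker, map_sub, map_one, sub_eq_zero]
      funext i
      have h2 := h1 i (Finset.mem_univ i)
      have h3 := congrArg (fun z : ↥(GE2 (A i)) => ((z : (Matrix (Fin 2) (Fin 2) (A i))ˣ) :
        Matrix (Fin 2) (Fin 2) (A i))) h2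
      exact h3)
  have hle : ∀ x : Subgroup.closure (U : Set H), ((x : H) : (Matrix (Fin 2) (Fin 2) B)ˣ) ∈
      Subgroup.closure ((U.image fun u : H => (u : (Matrix (Fin 2) (Fin 2) B)ˣ) : Finset _) :
        Set (Matrix (Fin 2) (Fin 2) B)ˣ) := by
    intro x
    have h2 : Subgroup.closure (U : Set H) ≤ (Subgroup.closure ((U.image fun u : H =>
        (u : (Matrix (Fin 2) (Fin 2) B)ˣ) : Finset _) :
        Set (Matrix (Fin 2) (Fin 2) B)ˣ)).comap H.subtype := by
      rw [Subgroup.closure_le]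
      intro y hy
      refine Subgroup.subset_closure ?_
      rw [Finset.coe_image]
      exact ⟨y, hy, rfl⟩
    exact h2 x.2
  refine Group.isSolvable_of_isSolvable_injective
    (f := (H.subtype.comp (Subgroup.closure (U : Set H)).subtype).codRestrict _ hle) ?_
  intro x y hxy
  have h0 := congrArg Subtype.val hxy
  exact Subtype.ext (Subtype.ext h0)

theorem mp_ge2 {B A : Type} [Ring B] [Ring A] (h : B →+* A) {g : (Matrix (Fin 2) (Fin 2) B)ˣ}
    (hg : g ∈ GE2 B) : mp h g ∈ GE2 A := by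
  have h1 : GE2 B ≤ (GE2 A).comap (mp h) := by
    rw [GE2, Subgroup.closure_le]
    rintro g (⟨h1, h2⟩ | ⟨r, hr⟩ | ⟨r, hr⟩)
    · refine Subgroup.subset_closure (Or.inl ⟨?_, ?_⟩)
      · change h (g.val 1 0) = 0
        rw [h1, map_zero]
      · change h (g.val 0 1) = 0
        rw [h2, map_zero]
    · refine Subgroup.subset_closure (Or.inr (Or.inl ⟨h r, ?_⟩))
      change g.val.map h = _
      rw [hr]
      ext i j
      fin_cases i <;> fin_cases j <;> simp
    · refine Subgroup.subset_closure (Or.inr (Or.inr ⟨h r, ?_⟩))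
      change g.val.map h = _
      rw [hr]
      ext i j
      fin_cases i <;> fin_cases j <;> simp
  exact h1 hg

end Pool.Agent.U74.BCC.GN
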