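import Pool.Agent.U74.BCC.Base
import Pool.Agent.U293.EP.Jvdk

/-!
# Groups of polynomial automorphisms in two variables
-/

set_option autoImplicit false

namespace Pool.Agent.U74.BCC

open MvPolynomial Pool.Agent.U293.PA

variable {C : ∀ (G : Type) [Group G], Prop}

theorem BCClass.solv (hC : BCClass C) {G : Type} [Group G] (h : Group.IsSolvable G) : C G := by
  refine hC.vsolv G ⊤ ?_ inferInstance
  exact Group.isSolvable_of_isSolvable_injective
    (f := (Subgroup.topEquiv : (⊤ : Subgroup G) ≃* G).toMonoidHom)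
    (Subgroup.topEquiv : (⊤ : Subgroup G) ≃* G).injective

section aff

variable {K : Type} [Field K]

/-- the linear part of an affine automorphism -/
noncomputable def linM (g : Au K) : Matrix (Fin 2) (Fin 2) K :=
  !![(g (X 0)).coeff (Finsupp.single 0 1), (g (X 1)).coeff (Finsupp.single 0 1);
     (g (X 0)).coeff (Finsupp.single 1 1), (g (X 1)).coeff (Finsupp.single 1 1)]

theorem linM_eq {g : Au K} {a b c d e f : K}
    (h0 : g (X 0) = MvPolynomial.C a * X 0 + MvPolynomial.C b * X 1 + MvPolynomial.C e)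
    (h1 : g (X 1) = MvPolynomial.C c * X 0 + MvPolynomial.C d * X 1 + MvPolynomial.C f) :
    linM g = !![a, c; b, d] := by
  unfold linM
  rw [h0, h1, (U293.EP.co a b e).1, (U293.EP.co a b e).2.1, (U293.EP.co c d f).1,
    (U293.EP.co c d f).2.1]

/-- the linear part -/
noncomputable def lin : ↥(affG (⊤ : Subfield K)) →* Matrix.GeneralLinearGroup (Fin 2) K :=
  MonoidHom.toHomUnits
    { toFun := fun g => linM (g : Au K)
      map_one' := by
        have h0 : ((1 : Au K)) (X 0) = MvPolynomial.C 1 * X 0 + MvPolynomial.C 0 * X 1 +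
          MvPolynomial.C 0 := by simp
        have h1 : ((1 : Au K)) (X 1) = MvPolynomial.C 0 * X 0 + MvPolynomial.C 1 * X 1 +
          MvPolynomial.C 0 := by simp
        have := linM_eq h0 h1
        rw [Subgroup.coe_one, this]
        ext i j
        fin_cases i <;> fin_cases j <;> simp
      map_mul' := by
        rintro ⟨g, hg⟩ ⟨h, hh⟩
        obtain ⟨a, b, c, d, e, f, h0, h1⟩ := aff_top.1 hg
        obtain ⟨a', b', c', d', e', f', h0', h1'⟩ := aff_top.1 hh
        have k0 : (g * h) (X 0) = MvPolynomial.C (a' * a + b' * c) * X 0 +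
            MvPolynomial.C (a' * b + b' * d) * X 1 + MvPolynomial.C (a' * e + b' * f + e') := by
          rw [AlgEquiv.mul_apply, h0', map_add, map_add, map_mul, map_mul, gC, gC, gC, h0, h1]
          simp only [C_add, C_mul]
          ring
        have k1 : (g * h) (X 1) = MvPolynomial.C (c' * a + d' * c) * X 0 +
            MvPolynomial.C (c' * b + d' * d) * X 1 + MvPolynomial.C (c' * e + d' * f + f') := by
          rw [AlgEquiv.mul_apply, h1', map_add, map_add, map_mul, map_mul, gC, gC, gC, h0, h1]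
          simp only [C_add, C_mul]
          ring
        change linM (g * h) = linM g * linM h
        rw [linM_eq k0 k1, linM_eq h0 h1, linM_eq h0' h1']
        ext i j
        fin_cases i <;> fin_cases j <;> simp [Matrix.mul_apply, Fin.sum_univ_two] <;> ring }

theorem lin_ker {g : ↥(affG (⊤ : Subfield K))} (h : lin g = 1) :
    ∃ e f : K, (g : Au K) (X 0) = X 0 + MvPolynomial.C e ∧ (g : Au K) (X 1) = X 1 + MvPolynomial.C f := by
  obtain ⟨a, b, c, d, e, f, h0, h1⟩ := aff_top.1 g.2
  have h2 : linM (g : Au K) = 1 := congrArg Units.val h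
  rw [linM_eq h0 h1] at h2
  have e00 := congrFun (congrFun h2 0) 0
  have e01 := congrFun (congrFun h2 0) 1
  have e10 := congrFun (congrFun h2 1) 0
  have e11 := congrFun (congrFun h2 1) 1
  simp at e00 e01 e10 e11
  refine ⟨e, f, ?_, ?_⟩
  · rw [h0, e00, e10]
    simp
  · rw [h1, e01, e11]
    simp

theorem c_aff (hC : BCClass C) : C ↥(affG (⊤ : Subfield K)) := by
  refine hC.sol lin (hC.gl2 K) (Group.isSolvable_of_comm ?_)
  rintro ⟨x, hx⟩ ⟨y, hy⟩
  obtain ⟨e, f, h0, h1⟩ := lin_ker ((MonoidHom.mem_ker).1 hx)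
  obtain ⟨e', f', h0', h1'⟩ := lin_ker ((MonoidHom.mem_ker).1 hy)
  apply Subtype.ext
  apply Subtype.ext
  change (x : Au K) * (y : Au K) = (y : Au K) * (x : Au K)
  apply ext_of
  · rw [AlgEquiv.mul_apply, AlgEquiv.mul_apply, h0, h0', map_add, map_add, gC, gC, h0, h0']
    ring
  · rw [AlgEquiv.mul_apply, AlgEquiv.mul_apply, h1, h1', map_add, map_add, gC, gC, h1, h1']
    ring

theorem c_tame (hC : BCClass C) (K : Type) [Field K] : C ↥(Tame K) := by
  refine hC.tree (GG (affG (⊤ : Subfield K)) (triG ⊤)) (Vt (affG ⊤) (triG ⊤)) (tr (affG ⊤) (triG ⊤))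
    (tr_tree (pair_of ⊤)) (fun g u v h => tr_act g u v h) (fun g u v h => tr_inv g u v h) fun v => ?_
  rcases cases_v v with ⟨g, rfl⟩ | ⟨g, rfl⟩
  · let f : ↥(MulAction.stabilizer (GG (affG (⊤ : Subfield K)) (triG ⊤)) (vA (affG ⊤) (triG ⊤) g)) →*
        ↥(affG (⊤ : Subfield K)) :=
      { toFun := fun x => ⟨(g : Au K)⁻¹ * ((x : GG (affG (⊤ : Subfield K)) (triG ⊤)) : Au K) * (g : Au K),
          fixA x.2⟩
        map_one' := by
          apply Subtype.ext
          simp
        map_mul' := fun x y => by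
          apply Subtype.ext
          simp only [Subgroup.coe_mul]
          group }
    refine hC.sub _ _ f ?_ (c_aff hC)
    intro x y hxy
    have h1 := congrArg Subtype.val hxy
    have h2 : (g : Au K)⁻¹ * ((x : GG (affG (⊤ : Subfield K)) (triG ⊤)) : Au K) * (g : Au K) =
        (g : Au K)⁻¹ * ((y : GG (affG (⊤ : Subfield K)) (triG ⊤)) : Au K) * (g : Au K) := h1
    have h3 := mul_left_cancel (mul_right_cancel h2)
    exact Subtype.ext (Subtype.ext h3)
  · let f : ↥(MulAction.stabilizer (GG (affG (⊤ : Subfield K)) (triG ⊤)) (vB (affG ⊤) (triG ⊤) g)) →*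
        ↥(triG (⊤ : Subfield K)) :=
      { toFun := fun x => ⟨(g : Au K)⁻¹ * ((x : GG (affG (⊤ : Subfield K)) (triG ⊤)) : Au K) * (g : Au K),
          fixB x.2⟩
        map_one' := by
          apply Subtype.ext
          simp
        map_mul' := fun x y => by
          apply Subtype.ext
          simp only [Subgroup.coe_mul]
          group }
    refine hC.sub _ _ f ?_ (hC.solv tri_solvable)
    intro x y hxy
    have h1 := congrArg Subtype.val hxy
    have h2 : (g : Au K)⁻¹ * ((x : GG (affG (⊤ : Subfield K)) (triG ⊤)) : Au K) * (g : Au K) =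
        (g : Au K)⁻¹ * ((y : GG (affG (⊤ : Subfield K)) (triG ⊤)) : Au K) * (g : Au K) := h1
    have h3 := mul_left_cancel (mul_right_cancel h2)
    exact Subtype.ext (Subtype.ext h3)

end aff

open Pool.Agent.U293.EP (An FT bc bc_comp bc_ker_congr bc_eq_one_iff bc_injective defined_over solvable_ker)

variable {σ : Type} (T : ∀ (K : Type) [Field K], Subgroup (An σ K))

/-- from algebraically closed fields to arbitrary commutative rings -/
theorem c_FT (hC : BCClass C) (hT : ∀ (K : Type) [Field K] [IsAlgClosed K], C (T K)) [Finite σ]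
    (R : Type) [CommRing R] : C ↥(FT T R) := by
  classical
  refine hC.loc _ fun H hH => ?_
  obtain ⟨Sg, hSg⟩ := hH
  choose S hSfin hS using fun g : ↥(FT T R) => defined_over (g : An σ R)
  have hfin : (⋃ g ∈ Sg, S g).Finite := Set.Finite.biUnion Sg.finite_toSet fun g _ => hSfin g
  obtain ⟨R0, hR0⟩ : ∃ R0 : Subring R, R0 = Subring.closure (⋃ g ∈ Sg, S g) := ⟨_, rfl⟩
  have hnoeth : IsNoetherianRing R0 := by
    rw [hR0]
    exact is_noetherian_subring_closure _ hfin
  have hrange : ∀ h ∈ H, (h : An σ R) ∈ (bc (σ := σ) R0.subtype).range := by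
    have h1 : H ≤ ((bc (σ := σ) R0.subtype).range).comap (FT T R).subtype := by
      rw [← hSg, Subgroup.closure_le]
      intro g hg
      refine hS g R0 ?_
      rw [hR0]
      refine Set.Subset.trans ?_ Subring.subset_closure
      exact Set.subset_biUnion_of_mem (u := S) hg
    exact fun h hh => h1 hh
  have hι : Function.Injective (R0.subtype) := R0.subtype_injective
  have hG0 : C ↥((FT T R).comap (bc (σ := σ) R0.subtype)) := by
    have hmf := minimalPrimes.finite_of_isNoetherianRing R0
    have hq : ∀ p : {p : Ideal R0 // p ∈ minimalPrimes R0}, ∃ (K : Type) (_ : Field K) (_ : IsAlgClosed K)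
        (f : R →+* K), RingHom.ker (f.comp R0.subtype) = p.1 := by
      rintro ⟨p, hp⟩
      obtain ⟨q, hq, hqp⟩ := Ideal.exists_comap_eq_of_mem_minimalPrimes_of_injective hι p hp
      let K : Type := AlgebraicClosure (FractionRing (R ⧸ q))
      let j : (R ⧸ q) →+* K := (algebraMap (FractionRing (R ⧸ q)) K).comp (algebraMap (R ⧸ q) _)
      have hj : Function.Injective j :=
        (algebraMap (FractionRing (R ⧸ q)) K).injective.comp (IsFractionRing.injective _ _)
      refine ⟨K, inferInstance, inferInstance, j.comp (Ideal.Quotient.mk q), ?_⟩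
      ext x
      change j (Ideal.Quotient.mk q (R0.subtype x)) = 0 ↔ x ∈ p
      rw [← hqp, Ideal.mem_comap, map_eq_zero_iff j hj, Ideal.Quotient.eq_zero_iff_mem]
    choose Kf i1 i2 f hker using hq
    have : Fintype {p : Ideal R0 // p ∈ minimalPrimes R0} := hmf.fintype
    obtain ⟨P, _, φ, hP, hφ⟩ := hC.multi (G := ↥((FT T R).comap (bc (σ := σ) R0.subtype)))
      (Finset.univ : Finset {p : Ideal R0 // p ∈ minimalPrimes R0})
      (fun p => ↥(@T (Kf p) (i1 p)))
      (fun p => ((bc (σ := σ) ((f p).comp R0.subtype)).comp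
        ((FT T R).comap (bc (σ := σ) R0.subtype)).subtype).codRestrict _ (fun g => by
          have h1 := g.2 (Kf p) (f p)
          rw [bc_comp] at h1
          exact h1))
      (fun p => hT (Kf p))
    refine hC.sol φ hP ?_
    obtain ⟨k, hk⟩ := IsNoetherianRing.isNilpotent_nilradical R0
    have hk2 : nilradical R0 ^ (2 ^ k) = ⊥ := by
      have h1 : nilradical R0 ^ (2 ^ k) ≤ nilradical R0 ^ k := Ideal.pow_le_pow_right (Nat.lt_two_pow_self).le
      rw [hk] at h1
      exact le_bot_iff.1 h1
    have hsol := solvable_ker (σ := σ) k R0 (nilradical R0) hk2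
    have hmem : ∀ g : ↥((FT T R).comap (bc (σ := σ) R0.subtype)), φ g = 1 →
        (g : An σ R0) ∈ (bc (σ := σ) (Ideal.Quotient.mk (nilradical R0))).ker := by
      intro g hg
      rw [MonoidHom.mem_ker, bc_eq_one_iff, Ideal.mk_ker]
      intro i m
      have h1 : nilradical R0 = sInf (minimalPrimes R0) := by
        rw [nilradical, ← Ideal.sInf_minimalPrimes]
        rfl
      rw [h1, Ideal.mem_sInf]
      intro p hp
      have h2 := (hφ g).1 hg ⟨p, hp⟩ (Finset.mem_univ _)
      have h3 : bc (σ := σ) ((f ⟨p, hp⟩).comp R0.subtype) (g : An σ R0) = 1 := congrArg Subtype.val h2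
      have h4 := (bc_eq_one_iff _ _).1 h3 i m
      rw [hker] at h4
      exact h4
    refine Group.isSolvable_of_isSolvable_injective (f := (((FT T R).comap (bc (σ := σ)
      R0.subtype)).subtype.comp φ.ker.subtype).codRestrict
        (bc (σ := σ) (Ideal.Quotient.mk (nilradical R0))).ker (fun g => hmem g.1 g.2)) ?_
    intro a b hab
    have h1 := congrArg (fun x : ↥(bc (σ := σ) (Ideal.Quotient.mk (nilradical R0))).ker =>
      (x : An σ R0)) hab
    exact Subtype.ext (Subtype.ext h1)
  let e := MonoidHom.ofInjective (bc_injective (σ := σ) hι)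
  let f : H →* ↥((FT T R).comap (bc (σ := σ) R0.subtype)) :=
    (e.symm.toMonoidHom.comp (((FT T R).subtype.comp H.subtype).codRestrict _
      (fun h => hrange h.1 h.2))).codRestrict _ (fun h => by
        rw [Subgroup.mem_comap]
        have h1 : bc (σ := σ) R0.subtype (e.symm ⟨(h : ↥(FT T R)), hrange h.1 h.2⟩) =
            ((h : ↥(FT T R)) : An σ R) := congrArg Subtype.val (e.apply_symm_apply _)
        change bc (σ := σ) R0.subtype (e.symm ⟨(h : ↥(FT T R)), hrange h.1 h.2⟩) ∈ FT T R
        rw [h1]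
        exact h.1.2)
  refine hC.sub _ _ f ?_ hG0
  intro a b hab
  have h1 : e.symm ⟨(a : ↥(FT T R)), hrange a.1 a.2⟩ = e.symm ⟨(b : ↥(FT T R)), hrange b.1 b.2⟩ :=
    congrArg Subtype.val hab
  have h2 := e.symm.injective h1
  apply Subtype.ext
  apply Subtype.ext
  have h3 := congrArg (fun x : ↥((bc (σ := σ) R0.subtype).range) => (x : An σ R)) h2
  exact h3

/-- the fibrewise tame automorphisms of `R[x, y]` -/
theorem c_fibreTame (hC : BCClass C) (R : Type) [CommRing R] :
    C ↥(FT (σ := Fin 2) (fun K _ => U293.EP.TameS K) R) :=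
  c_FT (fun K _ => U293.EP.TameS K) hC (fun K _ _ => c_tame hC K) R

end Pool.Agent.U74.BCC
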