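import Pool.Agent.U74.BCC.Plane
import Pool.Agent.U74.BCC.Tr

/-!
# Semilinear polynomial automorphisms in two variables
-/

set_option autoImplicit false

namespace Pool.Agent.U74.BCC

open MvPolynomial Pool.Agent.U293.PA
open Pool.Agent.U293.EP (An bc bc_X bc_comp an_ext)

variable {C : ∀ (G : Type) [Group G], Prop}

/-- the class contains the groups which have a subgroup of finite index which embeds in `GL_2` of a
field -/
def FinExtGL2 (C : ∀ (G : Type) [Group G], Prop) : Prop :=
  ∀ (G : Type) [Group G] (N : Subgroup G) (K : Type) [Field K]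
    (f : N →* Matrix.GeneralLinearGroup (Fin 2) K), N.FiniteIndex → Function.Injective f → C G

section

variable {K : Type} [Field K] {F : Type} [Group F] (s : F →* RingAut K)

/-- the coefficients are changed by an automorphism of the field -/
noncomputable def cj : F →* MulAut (Au K) where
  toFun f :=
    { toFun := bc (σ := Fin 2) (s f : K ≃+* K).toRingHom
      invFun := bc (σ := Fin 2) (s f⁻¹ : K ≃+* K).toRingHom
      left_inv := fun g => by
        rw [bc_comp]
        apply an_ext
        intro i
        rw [bc_X]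
        have : ((s f⁻¹ : K ≃+* K).toRingHom.comp (s f : K ≃+* K).toRingHom) = RingHom.id K := by
          ext x
          change (s f⁻¹) ((s f) x) = x
          rw [map_inv]
          exact (s f).symm_apply_apply x
        rw [this, MvPolynomial.map_id]
      right_inv := fun g => by
        rw [bc_comp]
        apply an_ext
        intro i
        rw [bc_X]
        have : ((s f : K ≃+* K).toRingHom.comp (s f⁻¹ : K ≃+* K).toRingHom) = RingHom.id K := by
          ext x
          change (s f) ((s f⁻¹) x) = x
          rw [map_inv]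
          exact (s f).apply_symm_apply x
        rw [this, MvPolynomial.map_id]
      map_mul' := fun g h => map_mul _ g h }
  map_one' := by
    ext1 g
    apply an_ext
    intro i
    change bc (σ := Fin 2) (s 1 : K ≃+* K).toRingHom g (X i) = g (X i)
    rw [bc_X]
    have : (s 1 : K ≃+* K).toRingHom = RingHom.id K := by
      rw [map_one]
      rfl
    rw [this, MvPolynomial.map_id]
  map_mul' f f' := by
    ext1 g
    apply an_ext
    intro i
    change bc (σ := Fin 2) (s (f * f') : K ≃+* K).toRingHom g (X i) =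
      bc (σ := Fin 2) (s f : K ≃+* K).toRingHom (bc (σ := Fin 2) (s f' : K ≃+* K).toRingHom g) (X i)
    rw [bc_comp, bc_X, bc_X]
    have : (s (f * f') : K ≃+* K).toRingHom = (s f : K ≃+* K).toRingHom.comp
        (s f' : K ≃+* K).toRingHom := by
      rw [map_mul]
      rfl
    rw [this]

theorem cj_X (f : F) (g : Au K) (i : Fin 2) :
    cj s f g (X i) = map (s f : K ≃+* K).toRingHom (g (X i)) := bc_X _ g i

theorem cj_aff {f : F} {g : Au K} (hg : g ∈ affG (⊤ : Subfield K)) :
    cj s f g ∈ affG (⊤ : Subfield K) := by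
  obtain ⟨a, b, c, d, e, k, h0, h1⟩ := aff_top.1 hg
  refine aff_top.2 ⟨s f a, s f b, s f c, s f d, s f e, s f k, ?_, ?_⟩
  · rw [cj_X, h0]
    simp only [map_add, map_mul, map_C, map_X]
    rfl
  · rw [cj_X, h1]
    simp only [map_add, map_mul, map_C, map_X]
    rfl

theorem map_ae (j : K →+* K) (p : Polynomial K) :
    map j (Polynomial.aeval (X 1 : Rg K) p) = Polynomial.aeval (X 1 : Rg K) (p.map j) := by
  induction p using Polynomial.induction_on' with
  | add p q hp hq => rw [map_add, map_add, Polynomial.map_add, map_add, hp, hq]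
  | monomial n a =>
    rw [Polynomial.map_monomial, Polynomial.aeval_monomial, Polynomial.aeval_monomial, map_mul, map_pow,
      map_X, MvPolynomial.algebraMap_eq, map_C]

theorem cj_tri {f : F} {g : Au K} (hg : g ∈ triG (⊤ : Subfield K)) :
    cj s f g ∈ triG (⊤ : Subfield K) := by
  obtain ⟨a, b, c, p, h0, h1⟩ := tri_top.1 hg
  refine tri_top.2 ⟨s f a, s f b, s f c, p.map (s f : K ≃+* K).toRingHom, ?_, ?_⟩
  · rw [cj_X, h0, map_add, map_ae]
    simp only [map_mul, map_C, map_X]
    rfl
  · rw [cj_X, h1]
    simp only [map_add, map_mul, map_C, map_X]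
    rfl

/-- the group of the elements whose linear part is in a given group -/
def lft (H : Subgroup (Au K)) (hH : ∀ f, ∀ h ∈ H, cj s f h ∈ H) : Subgroup (Au K ⋊[cj s] F) where
  carrier := {x | x.left ∈ H}
  one_mem' := H.one_mem
  mul_mem' := fun {a b} ha hb => H.mul_mem ha (hH _ _ hb)
  inv_mem' := fun {a} ha => hH _ _ (H.inv_mem ha)

/-- the semilinear affine group -/
def aS : Subgroup (Au K ⋊[cj s] F) := lft s (affG ⊤) fun _ _ h => cj_aff s h

/-- the semilinear triangular group -/
def bS : Subgroup (Au K ⋊[cj s] F) := lft s (triG ⊤) fun _ _ h => cj_tri s h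

theorem cj_back {H : Subgroup (Au K)} (hH : ∀ f, ∀ h ∈ H, cj s f h ∈ H) {f : F} {g : Au K}
    (h : cj s f g ∈ H) : g ∈ H := by
  have h1 := hH f⁻¹ _ h
  have h2 : cj s f⁻¹ (cj s f g) = g := by
    rw [← MulAut.mul_apply, ← map_mul, inv_mul_cancel, map_one]
    rfl
  rwa [h2] at h1

theorem levS : U670.AT.Lev (aS s) (bS s) (fun x => mx x.left) (fun x => dg (x.left (X 1))) where
  iA := fun g a ha => mx_mul g.left (cj_aff s ha)
  iB := fun g b hb => dg_tri g.left (cj_tri s hb)
  le := fun g => le_max_right _ _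
  base := fun a ha => max_le ((aff_dg_le ha 0).trans (dg_X_pos a.left 1)) le_rfl
  uA := fun g a ha h1 h2 => by
    have h3 := low_unique g.left (a := 1) (a' := cj s g.right a.left) (one_mem _) (cj_aff s ha)
      (by rwa [mul_one]) h2
    rw [inv_one, one_mul] at h3
    exact cj_back s (fun _ _ h => cj_tri s h) h3
  uB := fun g b hb hna h1 => by
    have h3 := dg_big g.left (cj_tri s (f := g.right) hb)
      (fun hh => hna (cj_back s (fun _ _ h => cj_aff s h) hh)) ((le_max_left _ _).trans h1)
    exact lt_of_lt_of_le h3 (le_max_left _ _)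

theorem c_bS (hC : BCClass C) [Finite F] : C ↥(bS s) := by
  let r : ↥(bS s) →* F := SemidirectProduct.rightHom.comp (bS s).subtype
  refine hC.vsolv _ r.ker ?_ inferInstance
  let j : r.ker →* ↥(triG (⊤ : Subfield K)) :=
    { toFun := fun x => ⟨((x : ↥(bS s)) : Au K ⋊[cj s] F).left, x.1.2⟩
      map_one' := rfl
      map_mul' := fun x y => by
        apply Subtype.ext
        have hx : ((x : ↥(bS s)) : Au K ⋊[cj s] F).right = 1 := x.2
        change (((x : ↥(bS s)) : Au K ⋊[cj s] F) * ((y : ↥(bS s)) : Au K ⋊[cj s] F)).left = _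
        rw [SemidirectProduct.mul_left, hx, map_one]
        rfl }
  have := tri_solvable (K := K)
  refine Group.isSolvable_of_isSolvable_injective (f := j) ?_
  intro x y hxy
  apply Subtype.ext
  apply Subtype.ext
  have hx : ((x : ↥(bS s)) : Au K ⋊[cj s] F).right = 1 := x.2
  have hy : ((y : ↥(bS s)) : Au K ⋊[cj s] F).right = 1 := y.2
  exact SemidirectProduct.ext (congrArg Subtype.val hxy) (hx.trans hy.symm)

/-- the action on `GL_2(K)` -/
noncomputable def cg : F →* MulAut (Matrix.GeneralLinearGroup (Fin 2) K) where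
  toFun f :=
    { toFun := Matrix.GeneralLinearGroup.map (s f : K ≃+* K).toRingHom
      invFun := Matrix.GeneralLinearGroup.map (s f⁻¹ : K ≃+* K).toRingHom
      left_inv := fun g => by
        ext i j
        change (s f⁻¹) ((s f) (g.val i j)) = g.val i j
        rw [map_inv]
        exact (s f).symm_apply_apply _
      right_inv := fun g => by
        ext i j
        change (s f) ((s f⁻¹) (g.val i j)) = g.val i j
        rw [map_inv]
        exact (s f).apply_symm_apply _
      map_mul' := fun g h => map_mul _ g h }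
  map_one' := by
    ext g i j
    change (s 1) (g.val i j) = g.val i j
    rw [map_one]
    rfl
  map_mul' f f' := by
    ext g i j
    change (s (f * f')) (g.val i j) = (s f) ((s f') (g.val i j))
    rw [map_mul]
    rfl

theorem c_gS (hV : FinExtGL2 C) [Finite F] : C (Matrix.GeneralLinearGroup (Fin 2) K ⋊[cg s] F) := by
  let r : (Matrix.GeneralLinearGroup (Fin 2) K ⋊[cg s] F) →* F := SemidirectProduct.rightHom
  let j : r.ker →* Matrix.GeneralLinearGroup (Fin 2) K :=
    { toFun := fun x => (x : Matrix.GeneralLinearGroup (Fin 2) K ⋊[cg s] F).left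
      map_one' := rfl
      map_mul' := fun x y => by
        have hx : (x : Matrix.GeneralLinearGroup (Fin 2) K ⋊[cg s] F).right = 1 := x.2
        change ((x : Matrix.GeneralLinearGroup (Fin 2) K ⋊[cg s] F) *
          (y : Matrix.GeneralLinearGroup (Fin 2) K ⋊[cg s] F)).left = _
        rw [SemidirectProduct.mul_left, hx, map_one]
        rfl }
  refine hV _ r.ker K j inferInstance ?_
  intro x y hxy
  apply Subtype.ext
  have hx : (x : Matrix.GeneralLinearGroup (Fin 2) K ⋊[cg s] F).right = 1 := x.2
  have hy : (y : Matrix.GeneralLinearGroup (Fin 2) K ⋊[cg s] F).right = 1 := y.2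
  exact SemidirectProduct.ext hxy (hx.trans hy.symm)

theorem linM_cj (f : F) {g : Au K} (hg : g ∈ affG (⊤ : Subfield K)) :
    linM (cj s f g) = (linM g).map (s f) := by
  obtain ⟨a, b, c, d, e, k, h0, h1⟩ := aff_top.1 hg
  have k0 : cj s f g (X 0) = MvPolynomial.C (s f a) * X 0 + MvPolynomial.C (s f b) * X 1 +
      MvPolynomial.C (s f e) := by
    rw [cj_X, h0]
    simp only [map_add, map_mul, map_C, map_X]
    rfl
  have k1 : cj s f g (X 1) = MvPolynomial.C (s f c) * X 0 + MvPolynomial.C (s f d) * X 1 +
      MvPolynomial.C (s f k) := by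
    rw [cj_X, h1]
    simp only [map_add, map_mul, map_C, map_X]
    rfl
  rw [linM_eq h0 h1, linM_eq k0 k1]
  ext i j
  fin_cases i <;> fin_cases j <;> simp

/-- the linear part -/
noncomputable def linS : ↥(aS s) →* (Matrix.GeneralLinearGroup (Fin 2) K ⋊[cg s] F) where
  toFun x := ⟨lin ⟨(x : Au K ⋊[cj s] F).left, x.2⟩, (x : Au K ⋊[cj s] F).right⟩
  map_one' := SemidirectProduct.ext (map_one lin) rfl
  map_mul' x y := by
    refine SemidirectProduct.ext ?_ rfl
    have h1 : (⟨((x * y : ↥(aS s)) : Au K ⋊[cj s] F).left, (x * y).2⟩ : ↥(affG (⊤ : Subfield K))) =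
        (⟨(x : Au K ⋊[cj s] F).left, x.2⟩ : ↥(affG (⊤ : Subfield K))) *
        ⟨cj s (x : Au K ⋊[cj s] F).right (y : Au K ⋊[cj s] F).left, cj_aff s y.2⟩ := rfl
    rw [SemidirectProduct.mul_left]
    simp only
    rw [h1, map_mul]
    congr 1
    apply Units.ext
    exact linM_cj s _ y.2

theorem c_aS (hC : BCClass C) (hV : FinExtGL2 C) [Finite F] : C ↥(aS s) := by
  refine hC.sol (linS s) (c_gS s hV) (Group.isSolvable_of_comm ?_)
  rintro ⟨x, hx⟩ ⟨y, hy⟩
  have hx' : linS s x = 1 := (MonoidHom.mem_ker).1 hx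
  have hy' : linS s y = 1 := (MonoidHom.mem_ker).1 hy
  have x1 : lin ⟨(x : Au K ⋊[cj s] F).left, x.2⟩ = 1 := congrArg SemidirectProduct.left hx'
  have x2 : (x : Au K ⋊[cj s] F).right = 1 := congrArg SemidirectProduct.right hx'
  have y1 : lin ⟨(y : Au K ⋊[cj s] F).left, y.2⟩ = 1 := congrArg SemidirectProduct.left hy'
  have y2 : (y : Au K ⋊[cj s] F).right = 1 := congrArg SemidirectProduct.right hy'
  obtain ⟨e, f, h0, h1⟩ := lin_ker x1
  obtain ⟨e', f', h0', h1'⟩ := lin_ker y1
  simp only at h0 h1 h0' h1'
  apply Subtype.ext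
  apply Subtype.ext
  change (x : Au K ⋊[cj s] F) * (y : Au K ⋊[cj s] F) = (y : Au K ⋊[cj s] F) * (x : Au K ⋊[cj s] F)
  refine SemidirectProduct.ext ?_ ?_
  · rw [SemidirectProduct.mul_left, SemidirectProduct.mul_left, x2, y2, map_one, MulAut.one_apply,
      MulAut.one_apply]
    apply ext_of
    · rw [AlgEquiv.mul_apply, AlgEquiv.mul_apply, h0, h0', map_add, map_add, gC, gC, h0, h0']
      ring
    · rw [AlgEquiv.mul_apply, AlgEquiv.mul_apply, h1, h1', map_add, map_add, gC, gC, h1, h1']
      ring
  · rw [SemidirectProduct.mul_right, SemidirectProduct.mul_right, x2, y2]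

theorem tame_lft {x : Au K ⋊[cj s] F} (hx : x.left ∈ Tame K) : x ∈ aS s ⊔ bS s := by
  have h1 : x = SemidirectProduct.inl x.left * SemidirectProduct.inr x.right :=
    (SemidirectProduct.inl_left_mul_inr_right x).symm
  rw [h1]
  refine mul_mem ?_ (Subgroup.mem_sup_left ?_)
  · have h2 : Tame K ≤ (aS s ⊔ bS s).comap (SemidirectProduct.inl : Au K →* Au K ⋊[cj s] F) := by
      refine sup_le ?_ ?_
      · intro g hg
        exact Subgroup.mem_sup_left hg
      · intro g hg
        exact Subgroup.mem_sup_right hg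
    exact h2 hx
  · exact one_mem (affG (⊤ : Subfield K))

/-- **the group of the semilinear tame automorphisms, for a finite group of automorphisms of the
field** -/
theorem c_semi (hC : BCClass C) (hV : FinExtGL2 C) [Finite F] : C ↥(aS s ⊔ bS s) :=
  lev_bc hC (levS s) (c_aS s hC hV) (c_bS s hC)

end

end Pool.Agent.U74.BCC
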